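import Pool.Agent.TWR.Thc

/-!
TWR module Hlt (size 4): a real linear map that pulls back `σ` to `σ + t ∂∂̄w` maps the vectors of type
(0,1) for `I_t`, and only these, to vectors of type (0,1). Pure linear algebra at one point `z`.
Notation: `Tp a = (T a - I • T (I • a)) / 2` (complex linear in `a`), `Tm b = (T b + I • T (I • b)) / 2` (conjugate linear
in `b`); the coordinates of `Tp a + Tm b` are the left hand side of the conclusion.
PROOF. `S` is complex bilinear (`S_eq`), `levi w z` is linear in the first and conjugate linear in the second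
argument (`levi_eq_sum`). For all `c`:
`S (Tp a) (T c) = (S (T a) (T c) - I * S (T (I • a)) (T c)) / 2 = (S a c + t th a c - I (S (I • a) c + t th (I • a) c)) / 2
= S a c + t * levi w z a c` (since `th a c - I * th (I • a) c = 2 * levi w z a c`), and
`S (Tm b) (T c) = (S (T b) (T c) + I * S (T (I • b)) (T c)) / 2 = -t * levi w z c b`. So
(*) `S (Tp a + Tm b) (T c) = S a c + t * (levi w z a c - levi w z c b)`.
`T` is injective: if `T c = 0` then `S c c' + t * th c c' = 0` for all `c'`; replacing `c'` by `I • c'` and combining: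
`S c c' = t * levi w z c' c` and `t * levi w z c c' = 0` for all `c'`; the second gives `t * levi w z c' c = 0` too
(if `t ≠ 0`: `levi w z c c' = 0`, and `levi w z c' c = conj (levi w z c c')`: `LM_conj`, `levi_eq_sum`); so `S c c' = 0` for
all `c'`, `c = 0` (`S_ext` of CIS/Inv or `S_single`). Hence `T` is surjective (finite dimension).
(→) `IsZeroOne t w z a b` with `a' = c`, `b' = c` and (*): `S (Tp a + Tm b) (T c) = 0` for all `c`, so (surjectivity)
`Tp a + Tm b = 0`. (←) By (*) `S a c + t * (levi w z a c - levi w z c b) = 0` for all `c`; replacing `c` by `I • c` and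
combining: `S a c - t * levi w z c b = 0` and `t * levi w z a c = 0` for all `c`; with `c = a'` and `c = b'`:
`S a a' + t * (levi w z a b' - levi w z a' b) = 0`.
-/

open scoped ContDiff ComplexConjugate Topology
open Complex

namespace Pool.Agent.TWR

open Pool.Agent.DTW Pool.Agent.CIS

variable {n : ℕ} {w : E n → ℝ} {z : E n}

private theorem Hlt_levi_I_left (hw : ContDiffAt ℝ ∞ w z) (a b : E n) :
    levi w z (I • a) b = I * levi w z a b := by
  rw [levi_eq_sum hw, levi_eq_sum hw, Finset.mul_sum]
  refine Finset.sum_congr rfl fun k _ => ?_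
  rw [Finset.mul_sum]
  refine Finset.sum_congr rfl fun l _ => ?_
  simp only [Pi.smul_apply, smul_eq_mul]
  ring

private theorem Hlt_levi_I_right (hw : ContDiffAt ℝ ∞ w z) (a b : E n) :
    levi w z a (I • b) = -I * levi w z a b := by
  rw [levi_eq_sum hw, levi_eq_sum hw, Finset.mul_sum]
  refine Finset.sum_congr rfl fun k _ => ?_
  rw [Finset.mul_sum]
  refine Finset.sum_congr rfl fun l _ => ?_
  simp only [Pi.smul_apply, smul_eq_mul, map_mul, Complex.conj_I]
  ring

private theorem Hlt_levi_conj {U : Set (E n)} (hU : IsOpen U) (hw : ContDiffOn ℝ ∞ w U)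
    (hz : z ∈ U) (a b : E n) : conj (levi w z a b) = levi w z b a := by
  have hw' := hw.contDiffAt (hU.mem_nhds hz)
  rw [levi_eq_sum hw', levi_eq_sum hw', map_sum, Finset.sum_comm]
  rw [Finset.sum_congr rfl fun k _ => map_sum _ _ _]
  rw [Finset.sum_comm]
  rw [Finset.sum_comm]
  refine Finset.sum_congr rfl fun k _ => ?_
  refine Finset.sum_congr rfl fun l _ => ?_
  rw [map_mul, map_mul, LM_conj hU hw hz, Complex.conj_conj]
  ring

private theorem Hlt_S_lin (u v d : E n) (c : ℂ) :
    S (fun k => (u k + c * v k) / 2) d = (S u d + c * S v d) / 2 := by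
  rw [S_eq, S_eq, S_eq, Finset.mul_sum, ← Finset.sum_add_distrib, Finset.sum_div]
  refine Finset.sum_congr rfl fun k _ => ?_
  ring

private theorem Hlt_S_add (u v d : E n) : S (fun k => u k + v k) d = S u d + S v d := by
  rw [S_eq, S_eq, S_eq, ← Finset.sum_add_distrib]
  refine Finset.sum_congr rfl fun k _ => ?_
  ring

private theorem Hlt_S_I_left (a b : E n) : S (I • a) b = I * S a b := by
  rw [S_eq, S_eq, Finset.mul_sum]
  refine Finset.sum_congr rfl fun k _ => ?_
  simp only [Pi.smul_apply, smul_eq_mul]
  ring

private theorem Hlt_S_I_right (a b : E n) : S a (I • b) = I * S a b := by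
  rw [S_eq, S_eq, Finset.mul_sum]
  refine Finset.sum_congr rfl fun k _ => ?_
  simp only [Pi.smul_apply, smul_eq_mul]
  ring

private theorem Hlt_S_zero (b : E n) : S (0 : E n) b = 0 := by
  rw [S_eq]
  simp

theorem zo_of_pull {U : Set (E n)} (hU : IsOpen U) (hw : ContDiffOn ℝ ∞ w U) (hz : z ∈ U) (t : ℂ)
    (T : E n →L[ℝ] E n) (hT : ∀ a b : E n, S (T a) (T b) = S a b + t * th w z a b) (a b : E n) :
    IsZeroOne t w z a b ↔
      ∀ k, (T a k - I * T (I • a) k) / 2 + (T b k + I * T (I • b) k) / 2 = 0 := by
  have hw' := hw.contDiffAt (hU.mem_nhds hz)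
  have hII : I * I = -1 := Complex.I_mul_I
  -- the vector of the conclusion
  set v : E n := fun k => (T a k + (-I) * T (I • a) k) / 2 + (T b k + I * T (I • b) k) / 2 with hv
  have hstar : ∀ c : E n, S v (T c) = S a c + t * (levi w z a c - levi w z c b) := by
    intro c
    have e1 : S v (T c) = S (fun k => (T a k + (-I) * T (I • a) k) / 2) (T c)
        + S (fun k => (T b k + I * T (I • b) k) / 2) (T c) := Hlt_S_add _ _ _
    rw [e1, Hlt_S_lin, Hlt_S_lin, hT, hT, hT, hT]
    unfold th
    rw [Hlt_levi_I_left hw', Hlt_levi_I_left hw', Hlt_levi_I_right hw', Hlt_levi_I_right hw',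
      Hlt_S_I_left, Hlt_S_I_left]
    linear_combination (-(1 / 2) * (S a c + t * levi w z a c + t * levi w z c a)
      + (1 / 2) * (S b c + t * levi w z b c + t * levi w z c b)) * hII
  have hinj : Function.Injective T := by
    rw [injective_iff_map_eq_zero]
    intro c hc
    have h1 : ∀ c' : E n, S c c' + t * (levi w z c c' - levi w z c' c) = 0 := by
      intro c'
      have h := hT c c'
      rw [hc, Hlt_S_zero] at h
      exact h.symm
    have h2 : ∀ c' : E n, S c c' = 0 := by
      intro c'
      have h3 := h1 c'
      have h4 := h1 (I • c')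
      rw [Hlt_S_I_right, Hlt_levi_I_left hw', Hlt_levi_I_right hw'] at h4
      have h5 : S c c' - t * (levi w z c c' + levi w z c' c) = 0 := by
        have hI : I ≠ 0 := Complex.I_ne_zero
        apply mul_left_cancel₀ hI
        linear_combination h4
      have h6 : t * levi w z c c' = 0 := by
        linear_combination (1 / 2) * h3 - (1 / 2) * h5
      have h7 : t * levi w z c' c = 0 := by
        rcases mul_eq_zero.1 h6 with h | h
        · rw [h, zero_mul]
        · rw [← Hlt_levi_conj hU hw hz c c', h, map_zero, mul_zero]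
      linear_combination h3 - h6 + h7
    refine S_ext fun c' => ?_
    rw [h2, Hlt_S_zero]
  have hsurj : Function.Surjective T := by
    have h := (LinearMap.injective_iff_surjective (f := (T : E n →ₗ[ℝ] E n))).1 hinj
    exact h
  have hgoal : (∀ k, (T a k - I * T (I • a) k) / 2 + (T b k + I * T (I • b) k) / 2 = 0) ↔ v = 0 := by
    constructor
    · intro h
      funext k
      have := h k
      show (T a k + (-I) * T (I • a) k) / 2 + (T b k + I * T (I • b) k) / 2 = 0
      linear_combination this
    · intro h k
      have := congrFun h k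
      have h' : (T a k + (-I) * T (I • a) k) / 2 + (T b k + I * T (I • b) k) / 2 = 0 := this
      linear_combination h'
  rw [hgoal]
  constructor
  · intro h
    refine S_ext fun d => ?_
    obtain ⟨c, rfl⟩ := hsurj d
    rw [hstar, Hlt_S_zero]
    exact h c c
  · intro h a' b'
    have h1 : ∀ c : E n, S a c + t * (levi w z a c - levi w z c b) = 0 := by
      intro c
      rw [← hstar, h, Hlt_S_zero]
    have h2 : ∀ c : E n, S a c - t * (levi w z a c + levi w z c b) = 0 := by
      intro c
      have h4 := h1 (I • c)
      rw [Hlt_S_I_right, Hlt_levi_I_left hw', Hlt_levi_I_right hw'] at h4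
      apply mul_left_cancel₀ Complex.I_ne_zero
      linear_combination h4
    have h3 := h1 a'
    have h4 := h2 a'
    have h5 := h1 b'
    have h6 := h2 b'
    linear_combination (1 / 2) * h3 + (1 / 2) * h4 + (1 / 2) * h5 - (1 / 2) * h6

end Pool.Agent.TWR
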