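import Pool.Agent.TWR.Defs

/-!
TWR module Lis (size 4): the Lie derivative of `σ` along the Hamiltonian field of `l ψ`.
PROOF. Let `ψ` be smooth on `U`, `W = ham (fun y => l * (ψ y : ℂ))`. `S_ham` (CIS/Inv):
`S (W y) b = d10 (fun y => l * (ψ y : ℂ)) y b = l * d10 (cx ψ) y b` (`d10_const_mul`) for all `y ∈ U`. `S · b` is
real linear and continuous in the first argument, so
`S (fderiv ℝ W z a) b = fderiv ℝ (fun y => S (W y) b) z a = l * fderiv ℝ (fun y => d10 (cx ψ) y b) z a`
`= l * (d10 (fun y => d10 (cx ψ) y b) z a + d01 (fun y => d10 (cx ψ) y b) z a)`. With `S a c = -S c a`,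
`S a (fderiv ℝ W z b) = -l * (d10 (fun y => d10 (cx ψ) y a) z b + d01 (fun y => d10 (cx ψ) y a) z b)`.
The `d10 d10` terms are symmetric (`d10_d10_comm`) and cancel; `d01 (fun y => d10 (cx ψ) y b) z a
= d10 (fun y => d01 (cx ψ) y a) z b = levi ψ z b a` (`d10_d01_comm`). The sum is `l * (levi ψ z b a - levi ψ z a b)`.
-/

open scoped ContDiff ComplexConjugate Topology
open Complex

namespace Pool.Agent.TWR

open Pool.Agent.DTW Pool.Agent.CIS

variable {n : ℕ} {U : Set (E n)} {ψ : E n → ℝ} {z : E n}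

private noncomputable def Lis_S (b : E n) : E n →L[ℝ] ℂ :=
  LinearMap.toContinuousLinearMap
    { toFun := fun a => S a b
      map_add' := by
        intro x y
        unfold S
        rw [← Finset.sum_add_distrib]
        refine Finset.sum_congr rfl fun i _ => ?_
        simp only [Pi.add_apply]
        ring
      map_smul' := by
        intro c x
        unfold S
        rw [RingHom.id_apply, Finset.smul_sum]
        refine Finset.sum_congr rfl fun i _ => ?_
        simp only [Pi.smul_apply, Complex.real_smul]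
        ring }

private theorem Lis_S_apply (a b : E n) : Lis_S b a = S a b := rfl

private theorem Lis_fd (f : E n → ℂ) (z v : E n) : fderiv ℝ f z v = d10 f z v + d01 f z v := by
  unfold d10 d01
  ring

private theorem Lis_anti (a c : E n) : S a c = -S c a := by
  unfold S
  rw [← Finset.sum_neg_distrib]
  refine Finset.sum_congr rfl fun i _ => ?_
  ring

private theorem Lis_key (hU : IsOpen U) (hψ : ContDiffOn ℝ ∞ ψ U) (l : ℂ) {W : E n → E n}
    (hW : ∀ y ∈ U, W y = ham (fun y => l * (ψ y : ℂ)) y) (hz : z ∈ U) (a b : E n) :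
    S (fderiv ℝ W z a) b = l * (d10 (fun y => d10 (cx ψ) y b) z a +
      d01 (fun y => d10 (cx ψ) y b) z a) := by
  have hc : ContDiffOn ℝ ∞ (cx ψ) U := contDiffOn_cx hψ
  have hg : ContDiffOn ℝ ∞ (fun y => l * cx ψ y) U := contDiffOn_const.mul hc
  have hH : ContDiffOn ℝ ∞ (ham (fun y => l * cx ψ y)) U := by
    rw [contDiffOn_pi]
    intro k
    exact contDiffOn_const.mul (contDiffOn_d10 hU hg (e k.swap))
  have hWe : W =ᶠ[𝓝 z] ham (fun y => l * cx ψ y) := by
    filter_upwards [hU.mem_nhds hz] with y hy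
    exact hW y hy
  have hWd : DifferentiableAt ℝ W z :=
    ((hH.contDiffAt (hU.mem_nhds hz)).differentiableAt (by simp)).congr_of_eventuallyEq hWe
  have h1 : fderiv ℝ (fun y => S (W y) b) z a = S (fderiv ℝ W z a) b := by
    have h2 : HasFDerivAt (fun y => Lis_S b (W y)) ((Lis_S b).comp (fderiv ℝ W z)) z :=
      (Lis_S b).hasFDerivAt.comp z hWd.hasFDerivAt
    have h3 : (fun y => S (W y) b) = fun y => Lis_S b (W y) := rfl
    rw [h3, h2.fderiv]
    rfl
  have h4 : (fun y => S (W y) b) =ᶠ[𝓝 z] fun y => l * d10 (cx ψ) y b := by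
    filter_upwards [hU.mem_nhds hz] with y hy
    rw [hW y hy, S_ham]
    exact d10_const_mul (diffAt_of hU hc hy) l
  have hd : DifferentiableAt ℝ (fun y => d10 (cx ψ) y b) z :=
    diffAt_of hU (contDiffOn_d10 hU hc b) hz
  rw [← h1, h4.fderiv_eq, Lis_fd, d10_const_mul hd, d01_const_mul hd]
  ring

theorem S_lie (hU : IsOpen U) (hψ : ContDiffOn ℝ ∞ ψ U) (l : ℂ) {W : E n → E n}
    (hW : ∀ y ∈ U, W y = ham (fun y => l * (ψ y : ℂ)) y) (hz : z ∈ U) (a b : E n) :
    S (fderiv ℝ W z a) b + S a (fderiv ℝ W z b) = -l * th ψ z a b := by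
  have hc : ContDiffAt ℝ ∞ (cx ψ) z := (contDiffOn_cx hψ).contDiffAt (hU.mem_nhds hz)
  rw [Lis_anti a, Lis_key hU hψ l hW hz a b, Lis_key hU hψ l hW hz b a,
    d10_d10_comm hc a b, ← d10_d01_comm hc b a, ← d10_d01_comm hc a b]
  have h1 : ∀ c d : E n, d10 (fun y => d01 (cx ψ) y d) z c = levi ψ z c d := fun c d => rfl
  rw [h1, h1]
  unfold th
  ring

end Pool.Agent.TWR
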