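import Pool.Agent.TWR.Defs

/-!
TWR module Thc (size 4): calculus of the real 2-form `th w = ∂∂̄w`.
-/

open scoped ContDiff ComplexConjugate Topology
open Complex

namespace Pool.Agent.TWR

open Pool.Agent.DTW Pool.Agent.CIS

variable {n : ℕ} {U : Set (E n)} {w : E n → ℝ} {z : E n}

theorem th_eq_d (hU : IsOpen U) (hw : ContDiffOn ℝ ∞ w U) (hz : z ∈ U) (a b : E n) :
    th w z a b = fderiv ℝ (fun y => d01 (cx w) y b) z a - fderiv ℝ (fun y => d01 (cx w) y a) z b := by
  have hc : ContDiffAt ℝ ∞ (cx w) z := contDiffAt_cx (hw.contDiffAt (hU.mem_nhds hz))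
  have h1 := d10_add_d01 (fun y => d01 (cx w) y b) z a
  have h2 := d10_add_d01 (fun y => d01 (cx w) y a) z b
  have h3 := d01_d01_comm hc a b
  have h4 : levi w z a b = d10 (fun y => d01 (cx w) y b) z a := rfl
  have h5 : levi w z b a = d10 (fun y => d01 (cx w) y a) z b := rfl
  unfold th
  rw [h4, h5, ← h1, ← h2, h3]
  ring

private theorem Thc_fd {f : E n → ℂ} (hU : IsOpen U) (hf : ContDiffOn ℝ ∞ f U) (hz : z ∈ U)
    (a c : E n) :
    DifferentiableAt ℝ (fun y => fderiv ℝ f y a) z ∧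
      fderiv ℝ (fun y => fderiv ℝ f y a) z c = fderiv ℝ (fderiv ℝ f) z c a := by
  have hf' : ContDiffAt ℝ ∞ f z := hf.contDiffAt (hU.mem_nhds hz)
  have h2 : DifferentiableAt ℝ (fderiv ℝ f) z :=
    (hf'.fderiv_right (m := ∞) (by simp)).differentiableAt (by simp)
  have h3 : HasFDerivAt (fun y => fderiv ℝ f y a) ((fderiv ℝ (fderiv ℝ f) z).flip a) z := by
    have := h2.hasFDerivAt.clm_apply (hasFDerivAt_const a z)
    simpa using this
  refine ⟨h3.differentiableAt, ?_⟩
  rw [h3.fderiv]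
  rfl

private theorem Thc_dth (hU : IsOpen U) (hw : ContDiffOn ℝ ∞ w U) (hz : z ∈ U) (a b c : E n) :
    fderiv ℝ (fun y => th w y a b) z c
      = fderiv ℝ (fderiv ℝ (fun y => d01 (cx w) y b)) z c a
        - fderiv ℝ (fderiv ℝ (fun y => d01 (cx w) y a)) z c b := by
  have hb : ContDiffOn ℝ ∞ (fun y => d01 (cx w) y b) U := contDiffOn_d01 hU (contDiffOn_cx hw) b
  have ha : ContDiffOn ℝ ∞ (fun y => d01 (cx w) y a) U := contDiffOn_d01 hU (contDiffOn_cx hw) a
  have hev : (fun y => th w y a b) =ᶠ[𝓝 z]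
      fun y => fderiv ℝ (fun y => d01 (cx w) y b) y a - fderiv ℝ (fun y => d01 (cx w) y a) y b := by
    filter_upwards [hU.mem_nhds hz] with y hy
    exact th_eq_d hU hw hy a b
  obtain ⟨d1, e1⟩ := Thc_fd hU hb hz a c
  obtain ⟨d2, e2⟩ := Thc_fd hU ha hz b c
  rw [hev.fderiv_eq, fderiv_fun_sub d1 d2, ContinuousLinearMap.sub_apply, e1, e2]

theorem th_closed (hU : IsOpen U) (hw : ContDiffOn ℝ ∞ w U) (hz : z ∈ U) (a b c : E n) :
    fderiv ℝ (fun y => th w y a b) z c + fderiv ℝ (fun y => th w y b c) z a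
      + fderiv ℝ (fun y => th w y c a) z b = 0 := by
  have hs : ∀ v : E n, ∀ p q : E n, fderiv ℝ (fderiv ℝ (fun y => d01 (cx w) y v)) z p q
      = fderiv ℝ (fderiv ℝ (fun y => d01 (cx w) y v)) z q p := by
    intro v p q
    exact symm2 ((contDiffOn_d01 hU (contDiffOn_cx hw) v).contDiffAt (hU.mem_nhds hz)) p q
  rw [Thc_dth hU hw hz, Thc_dth hU hw hz, Thc_dth hU hw hz, hs b c a, hs a c b, hs c a b]
  ring

theorem th_add (hw : ContDiffAt ℝ ∞ w z) (a a' b : E n) :
    th w z (a + a') b = th w z a b + th w z a' b := by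
  unfold th
  rw [levi_eq_sum hw, levi_eq_sum hw, levi_eq_sum hw, levi_eq_sum hw, levi_eq_sum hw,
    levi_eq_sum hw]
  simp only [Pi.add_apply, map_add, add_mul, mul_add, Finset.sum_add_distrib]
  ring

theorem th_smul (hw : ContDiffAt ℝ ∞ w z) (r : ℝ) (a b : E n) :
    th w z (r • a) b = r * th w z a b := by
  unfold th
  rw [levi_eq_sum hw, levi_eq_sum hw, levi_eq_sum hw, levi_eq_sum hw, mul_sub, Finset.mul_sum,
    Finset.mul_sum]
  congr 1
  · refine Finset.sum_congr rfl fun k _ => ?_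
    rw [Finset.mul_sum]
    refine Finset.sum_congr rfl fun l _ => ?_
    rw [Pi.smul_apply, Complex.real_smul]
    ring
  · refine Finset.sum_congr rfl fun k _ => ?_
    rw [Finset.mul_sum]
    refine Finset.sum_congr rfl fun l _ => ?_
    rw [Pi.smul_apply, Complex.real_smul, map_mul, Complex.conj_ofReal]
    ring

theorem th_anti (w : E n → ℝ) (z a b : E n) : th w z a b = -th w z b a := by
  unfold th
  ring

/-- `(y, a, b) ↦ th w y a b` is smooth: used with the chain rule -/
theorem th_smooth (hU : IsOpen U) (hw : ContDiffOn ℝ ∞ w U) :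
    ContDiffOn ℝ ∞ (fun p : E n × E n × E n => th w p.1 p.2.1 p.2.2)
      {p | p.1 ∈ U} := by
  have hLM : ∀ k l : Ix n, ContDiffOn ℝ ∞ (fun y => LM w y k l) U := fun k l =>
    contDiffOn_pk hU (contDiffOn_pb hU (contDiffOn_cx hw) l) k
  have hLM' : ∀ k l : Ix n, ContDiffOn ℝ ∞ (fun p : E n × E n × E n => LM w p.1 k l)
      {p | p.1 ∈ U} := fun k l =>
    (hLM k l).comp contDiff_fst.contDiffOn (fun p hp => hp)
  have ha : ∀ k : Ix n, ContDiff ℝ ∞ (fun p : E n × E n × E n => p.2.1 k) := fun k =>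
    (contDiff_apply ℝ ℂ k).comp (contDiff_fst.comp contDiff_snd)
  have hb : ∀ k : Ix n, ContDiff ℝ ∞ (fun p : E n × E n × E n => p.2.2 k) := fun k =>
    (contDiff_apply ℝ ℂ k).comp (contDiff_snd.comp contDiff_snd)
  have hconj : ContDiff ℝ ∞ (fun c : ℂ => conj c) := Complex.conjCLE.contDiff
  have hca : ∀ k : Ix n, ContDiff ℝ ∞ (fun p : E n × E n × E n => conj (p.2.1 k)) := fun k =>
    hconj.comp (ha k)
  have hcb : ∀ k : Ix n, ContDiff ℝ ∞ (fun p : E n × E n × E n => conj (p.2.2 k)) := fun k =>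
    hconj.comp (hb k)
  have hmain : ContDiffOn ℝ ∞ (fun p : E n × E n × E n =>
      (∑ k, ∑ l, p.2.1 k * conj (p.2.2 l) * LM w p.1 k l)
        - ∑ k, ∑ l, p.2.2 k * conj (p.2.1 l) * LM w p.1 k l) {p | p.1 ∈ U} := by
    refine ContDiffOn.sub ?_ ?_
    · exact ContDiffOn.sum fun k _ => ContDiffOn.sum fun l _ =>
        (((ha k).mul (hcb l)).contDiffOn).mul (hLM' k l)
    · exact ContDiffOn.sum fun k _ => ContDiffOn.sum fun l _ =>
        (((hb k).mul (hca l)).contDiffOn).mul (hLM' k l)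
  refine hmain.congr fun p hp => ?_
  have hwp : ContDiffAt ℝ ∞ w p.1 := hw.contDiffAt (hU.mem_nhds hp)
  show th w p.1 p.2.1 p.2.2 = _
  unfold th
  rw [levi_eq_sum hwp, levi_eq_sum hwp]

private theorem Thc_diff (hU : IsOpen U) (hw : ContDiffOn ℝ ∞ w U) (hz : z ∈ U) (a b : E n) :
    DifferentiableAt ℝ (fun p : E n × E n × E n => th w p.1 p.2.1 p.2.2) (z, a, b) := by
  have hop : IsOpen {p : E n × E n × E n | p.1 ∈ U} := hU.preimage continuous_fst
  exact ((th_smooth hU hw).contDiffAt (hop.mem_nhds hz)).differentiableAt (by simp)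

private theorem Thc_prod (hU : IsOpen U) (hw : ContDiffOn ℝ ∞ w U) (hz : z ∈ U) {W : E n → E n}
    (hW : DifferentiableAt ℝ W z) (a b : E n) :
    fderiv ℝ (fun y => th w y (W y) b) z a
      = fderiv ℝ (fun y => th w y (W z) b) z a + th w z (fderiv ℝ W z a) b := by
  set T : E n × E n × E n → ℂ := fun p => th w p.1 p.2.1 p.2.2 with hT
  have hd := (Thc_diff hU hw hz (W z) b).hasFDerivAt
  set T' := fderiv ℝ T (z, W z, b) with hT'
  have h1 : HasFDerivAt (fun y : E n => (y, W y, b))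
      ((ContinuousLinearMap.id ℝ (E n)).prod ((fderiv ℝ W z).prod 0)) z :=
    (hasFDerivAt_id z).prodMk (hW.hasFDerivAt.prodMk (hasFDerivAt_const b z))
  have h2 : HasFDerivAt (fun y : E n => (y, W z, b))
      ((ContinuousLinearMap.id ℝ (E n)).prod ((0 : E n →L[ℝ] E n).prod 0)) z :=
    (hasFDerivAt_id z).prodMk ((hasFDerivAt_const (W z) z).prodMk (hasFDerivAt_const b z))
  have e1 : fderiv ℝ (fun y => th w y (W y) b) z a = T' (a, fderiv ℝ W z a, 0) := by
    have := HasFDerivAt.comp z (g := T) (f := fun y : E n => (y, W y, b)) hd h1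
    have h3 : fderiv ℝ (fun y => th w y (W y) b) z = _ := this.fderiv
    rw [h3]
    rfl
  have e2 : fderiv ℝ (fun y => th w y (W z) b) z a = T' (a, 0, 0) := by
    have := HasFDerivAt.comp z (g := T) (f := fun y : E n => (y, W z, b)) hd h2
    have h3 : fderiv ℝ (fun y => th w y (W z) b) z = _ := this.fderiv
    rw [h3]
    rfl
  have e3 : T' (0, fderiv ℝ W z a, 0) = th w z (fderiv ℝ W z a) b := by
    set v := fderiv ℝ W z a with hv
    have hline : HasDerivAt (fun t : ℝ => ((z, W z + t • v, b) : E n × E n × E n)) (0, v, 0) 0 := by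
      have hl : HasDerivAt (fun t : ℝ => W z + t • v) v 0 := by
        have := ((hasDerivAt_id (0 : ℝ)).smul_const v).const_add (W z)
        simpa using this
      exact (hasDerivAt_const (0 : ℝ) z).prodMk (hl.prodMk (hasDerivAt_const (0 : ℝ) b))
    have hp0 : ((z, W z + (0 : ℝ) • v, b) : E n × E n × E n) = (z, W z, b) := by simp
    have hd0 : HasFDerivAt T T' ((z, W z + (0 : ℝ) • v, b) : E n × E n × E n) := by
      rw [hp0]; exact hd
    have hc := HasFDerivAt.comp_hasDerivAt (0 : ℝ) (l := T)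
      (f := fun t : ℝ => ((z, W z + t • v, b) : E n × E n × E n)) hd0 hline
    have hwz : ContDiffAt ℝ ∞ w z := hw.contDiffAt (hU.mem_nhds hz)
    have hc2 : HasDerivAt (fun t : ℝ => th w z (W z) b + (t : ℂ) * th w z v b) (th w z v b) 0 := by
      have h5 : HasDerivAt (fun t : ℝ => (t : ℂ)) 1 0 := Complex.ofRealCLM.hasDerivAt
      have := (h5.mul_const (th w z v b)).const_add (th w z (W z) b)
      simpa using this
    have heq : (T ∘ fun t : ℝ => ((z, W z + t • v, b) : E n × E n × E n))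
        = fun t : ℝ => th w z (W z) b + (t : ℂ) * th w z v b := by
      funext t
      show th w z (W z + t • v) b = _
      rw [th_add hwz, th_smul hwz]
    rw [heq] at hc
    exact hc.unique hc2
  rw [e1, e2, ← e3, ← map_add]
  congr 1
  simp

theorem th_lie (hU : IsOpen U) (hw : ContDiffOn ℝ ∞ w U) {W : E n → E n}
    (hW : ContDiffOn ℝ ∞ W U) (h0 : ∀ y ∈ U, ∀ b, th w y (W y) b = 0) (hz : z ∈ U) (a b : E n) :
    fderiv ℝ (fun y => th w y a b) z (W z) + th w z (fderiv ℝ W z a) b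
      + th w z a (fderiv ℝ W z b) = 0 := by
  have hWz : DifferentiableAt ℝ W z :=
    (hW.contDiffAt (hU.mem_nhds hz)).differentiableAt (by simp)
  have hzero : ∀ p q : E n, fderiv ℝ (fun y => th w y (W z) q) z p
      + th w z (fderiv ℝ W z p) q = 0 := by
    intro p q
    rw [← Thc_prod hU hw hz hWz p q]
    have hev : (fun y => th w y (W y) q) =ᶠ[𝓝 z] fun _ => (0 : ℂ) := by
      filter_upwards [hU.mem_nhds hz] with y hy
      exact h0 y hy q
    rw [hev.fderiv_eq]
    simp
  have hcl := th_closed hU hw hz a b (W z)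
  have hab := hzero a b
  have hba := hzero b a
  have hneg : fderiv ℝ (fun y => th w y b (W z)) z a = -fderiv ℝ (fun y => th w y (W z) b) z a := by
    have : (fun y => th w y b (W z)) = fun y => -th w y (W z) b := by
      funext y
      exact th_anti w y b (W z)
    rw [this, fderiv_fun_neg]
    rfl
  rw [hneg] at hcl
  have h9 := th_anti w z a (fderiv ℝ W z b)
  linear_combination hcl + hab - hba + h9

end Pool.Agent.TWR
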