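import Pool.Agent.TWR.Psm
import Pool.Agent.TWR.Thc
import Pool.Agent.TWR.Lis

/-!
TWR module Kth (size 4): the field `WW` lies in the kernel of the curvature; Lie derivative of `σ`.
PROOF. `WW_ker`: with `w = B.wt i`, `W = WW B m s l i z`, `levi w z W b = ∑ k j, W k * conj (b j) * LM w z k j`
(`levi_eq_sum`), and `∑ k, W k * LM w z k j = l * ∑ k, sg k * (D_k' s / s) * LM w z k j = 0`: this is `key0'`
(CIS/Lex: `∑ k, sg k * LM w z k.swap j * (D_k s / s) = 0`) after reindexing `k → k.swap` (`ham_ker` of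
CIS/Qab with `f k = D_k s / s`; `WW_apply`). `levi w z b W = conj (levi w z W b)` (`LM_conj`, `levi_eq_sum`; or
directly by the same computation with conjugates), so `th w z W b = 0`.
`th_lp`: `levi (lp ..) z a b = -(m : ℂ) * levi w z a b` by `levi_eq_sum` and `LM_lp` (CIS/Lps; smoothness of
`lp` at `z`: `contDiffOn_lp`, `isOpen_Ou`).
`S_lieW`: `S_lie` (module Lis) with `U = Ou A s i`, `ψ = lp m w (st A s i)` (by `psi_chart` the function
`pf ∘ (A.c i).symm` is `fun y => l * (ψ y : ℂ)` on `Ou A s i`; `ham` at `y` only depends on the germ: `d10_congr`),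
and `th_lp`.
-/

open scoped ContDiff ComplexConjugate Topology
open Complex MeasureTheory

namespace Pool.Agent.TWR

open Pool.Agent.DTW Pool.Agent.CIS

variable {n : ℕ} {X : Type*} [TopologicalSpace X] {ι : Type*} {A : Atlas n X ι} {B : Bundle A}
  {m : ℤ} {s : ι → X → ℂ}

theorem th_lp (hs : B.IsSection m s) (hol : B.IsHol s) {i : ι} {z : E n} (hz : z ∈ Ou A s i)
    (a b : E n) : th (lp (m : ℝ) (B.wt i) (st A s i)) z a b = -(m : ℂ) * th (B.wt i) z a b := by
  have hU := isOpen_Ou (A := A) (B := B) (m := m) hs i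
  have hw : ContDiffOn ℝ ∞ (B.wt i) (Ou A s i) := (B.smooth i).mono (Ou_subset i)
  have hf : ContDiffOn ℝ ∞ (st A s i) (Ou A s i) := (hs.smooth i).mono (Ou_subset i)
  have h0 : ∀ y ∈ Ou A s i, st A s i y ≠ 0 := fun y hy => st_ne hy
  have hb : ∀ y ∈ Ou A s i, ∀ j, pb j (st A s i) y = 0 := fun y hy j => pb_st hol i hy.1 j
  have hlp : ContDiffOn ℝ ∞ (lp (m : ℝ) (B.wt i) (st A s i)) (Ou A s i) := contDiffOn_lp hw hf h0
  have hwz := hw.contDiffAt (hU.mem_nhds hz)
  have hlz := hlp.contDiffAt (hU.mem_nhds hz)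
  have key : ∀ a b : E n, levi (lp (m : ℝ) (B.wt i) (st A s i)) z a b
      = -(m : ℂ) * levi (B.wt i) z a b := by
    intro a b
    rw [levi_eq_sum hlz, levi_eq_sum hwz, Finset.mul_sum]
    refine Finset.sum_congr rfl fun k _ => ?_
    rw [Finset.mul_sum]
    refine Finset.sum_congr rfl fun j _ => ?_
    rw [LM_lp hU hw hf hb h0 hz]
    push_cast
    ring
  unfold th
  rw [key, key]
  ring

theorem S_lieW (hs : B.IsSection m s) (hol : B.IsHol s) (l : ℂ) {i : ι} {z : E n}
    (hz : z ∈ Ou A s i) (a b : E n) :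
    S (fderiv ℝ (WW B m s l i) z a) b + S a (fderiv ℝ (WW B m s l i) z b)
      = l * m * th (B.wt i) z a b := by
  have hU := isOpen_Ou (A := A) (B := B) (m := m) hs i
  have hw : ContDiffOn ℝ ∞ (B.wt i) (Ou A s i) := (B.smooth i).mono (Ou_subset i)
  have hf : ContDiffOn ℝ ∞ (st A s i) (Ou A s i) := (hs.smooth i).mono (Ou_subset i)
  have h0 : ∀ y ∈ Ou A s i, st A s i y ≠ 0 := fun y hy => st_ne hy
  have hlp : ContDiffOn ℝ ∞ (lp (m : ℝ) (B.wt i) (st A s i)) (Ou A s i) := contDiffOn_lp hw hf h0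
  have hW : ∀ y ∈ Ou A s i, WW B m s l i y
      = ham (fun y => l * ((lp (m : ℝ) (B.wt i) (st A s i) y : ℝ) : ℂ)) y := by
    intro y hy
    have hev : (pf B m s l ∘ (A.c i).symm)
        =ᶠ[𝓝 y] fun y => l * ((lp (m : ℝ) (B.wt i) (st A s i) y : ℝ) : ℂ) := by
      filter_upwards [(A.c i).open_target.mem_nhds hy.1] with u hu
      simp only [Function.comp_apply, pf]
      rw [psi_chart hs hu]
    unfold WW hamX ham
    funext k
    rw [d10_congr hev]
  rw [S_lie hU hlp l hW hz, th_lp hs hol hz]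
  ring

variable [MeasurableSpace X] [BorelSpace X] [T2Space X] [CompactSpace X] {μ : Measure X}

theorem WW_ker (hμ : A.IsVolume μ) (hsp : B.Semipositive) (hq : Para B μ)
    (hs : B.IsSection m s) (hol : B.IsHol s) (l : ℂ) {i : ι} {z : E n} (hz : z ∈ Ou A s i)
    (b : E n) : th (B.wt i) z (WW B m s l i z) b = 0 := by
  have hzt : z ∈ (A.c i).target := hz.1
  have hw : ContDiffOn ℝ ∞ (B.wt i) (A.c i).target := B.smooth i
  have hwz := hw.contDiffAt ((A.c i).open_target.mem_nhds hzt)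
  have hker : ∀ j : Ix n, ∑ k : Ix n, WW B m s l i z k * LM (B.wt i) z k j = 0 := by
    intro j
    have h1 := ham_ker (key0' hμ hsp hq hs hol hzt j)
    have h2 : ∑ k : Ix n, WW B m s l i z k * LM (B.wt i) z k j
        = l * ∑ k : Ix n, (sg k * (DD (m : ℝ) (B.wt i) k.swap (st A s i) z / st A s i z))
          * LM (B.wt i) z k j := by
      rw [Finset.mul_sum]
      refine Finset.sum_congr rfl fun k _ => ?_
      rw [WW_apply hs hol l hz]
      ring
    rw [h2, h1, mul_zero]
  have h3 : levi (B.wt i) z (WW B m s l i z) b = 0 := by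
    rw [levi_eq_sum hwz, Finset.sum_comm]
    refine Finset.sum_eq_zero fun j _ => ?_
    have h4 : ∑ k : Ix n, WW B m s l i z k * conj (b j) * LM (B.wt i) z k j
        = conj (b j) * ∑ k : Ix n, WW B m s l i z k * LM (B.wt i) z k j := by
      rw [Finset.mul_sum]
      exact Finset.sum_congr rfl fun k _ => by ring
    rw [h4, hker, mul_zero]
  have h5 : levi (B.wt i) z b (WW B m s l i z) = 0 := by
    rw [levi_eq_sum hwz]
    refine Finset.sum_eq_zero fun k _ => ?_
    have h6 : ∑ j : Ix n, b k * conj (WW B m s l i z j) * LM (B.wt i) z k j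
        = b k * conj (∑ j : Ix n, WW B m s l i z j * LM (B.wt i) z j k) := by
      rw [map_sum, Finset.mul_sum]
      refine Finset.sum_congr rfl fun j _ => ?_
      rw [map_mul, LM_conj (A.c i).open_target hw hzt]
      ring
    rw [h6, hker, map_zero, mul_zero]
  unfold th
  rw [h3, h5, sub_zero]

end Pool.Agent.TWR
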