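import Pool.Agent.CIS.Cpl

/-!
TWR: the degenerate twistor deformation is trivial on the complement of the divisor of a section.
Definitions.
-/

open scoped ContDiff ComplexConjugate Topology
open Complex

namespace Pool.Agent.TWR

open Pool.Agent.DTW Pool.Agent.CIS

variable {n : ℕ} {X : Type*} [TopologicalSpace X] {ι : Type*}

/-- `f` is a smooth complex function on the complement of the zero set of `s`. -/
def SmC (A : Atlas n X ι) (s : ι → X → ℂ) (f : X → ℂ) : Prop :=
  ∀ i, ContDiffOn ℝ ∞ (f ∘ (A.c i).symm) (Ou A s i)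

/-- The value of the form `∂∂̄w` on the real tangent vectors `a`, `b` of `ℂ^(2n)`. -/
noncomputable def th (w : E n → ℝ) (z a b : E n) : ℂ := levi w z a b - levi w z b a

variable {A : Atlas n X ι}

/-- The function `l log |s|²`. -/
noncomputable def pf (B : Bundle A) (m : ℤ) (s : ι → X → ℂ) (l : ℂ) (x : X) : ℂ :=
  l * (psi B m s x : ℂ)

/-- The Hamiltonian field of `l log |s|²` in the charts. -/
noncomputable def WW (B : Bundle A) (m : ℤ) (s : ι → X → ℂ) (l : ℂ) : ι → E n → E n :=
  hamX A (pf B m s l)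

/-- `γ` is a global integral curve of the field `WW` in the complement of the zero set of `s`. -/
def Curve (B : Bundle A) (m : ℤ) (s : ι → X → ℂ) (l : ℂ) (γ : ℝ → X) : Prop :=
  ∀ τ, IC A (WW B m s l) γ τ ∧ γ τ ∈ Off A s

open Classical in
/-- The flow of the field `WW`. -/
noncomputable def Fl (B : Bundle A) (m : ℤ) (s : ι → X → ℂ) (l : ℂ) (τ : ℝ) (x : X) : X :=
  if h : ∃ γ : ℝ → X, γ 0 = x ∧ Curve B m s l γ then h.choose τ else x

/-- The map `F` is continuous at `x`, of class `C¹` in the charts, and pulls back `σ` to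
`σ + t ∂∂̄w` and `∂∂̄w` to itself. -/
def Good (B : Bundle A) (t : ℂ) (F : X → X) (x : X) : Prop :=
  ContinuousAt F x ∧ ∀ i j, x ∈ (A.c i).source → F x ∈ (A.c j).source →
    ContDiffAt ℝ 1 (fun y => A.c j (F ((A.c i).symm y))) (A.c i x) ∧
    (∀ a b : E n, S (fderiv ℝ (fun y => A.c j (F ((A.c i).symm y))) (A.c i x) a)
        (fderiv ℝ (fun y => A.c j (F ((A.c i).symm y))) (A.c i x) b)
      = S a b + t * th (B.wt i) (A.c i x) a b) ∧
    ∀ a b : E n, th (B.wt j) (A.c j (F x))
        (fderiv ℝ (fun y => A.c j (F ((A.c i).symm y))) (A.c i x) a)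
        (fderiv ℝ (fun y => A.c j (F ((A.c i).symm y))) (A.c i x) b)
      = th (B.wt i) (A.c i x) a b

end Pool.Agent.TWR
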