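import Pool.Agent.TWR.Defs

/-!
TWR module Psm (size 3): the function `pf = l log |s|²` and its field in the charts.
Notation: `w = B.wt i`, `f = st A s i`, `DD m w k f = ∂_k f - m ∂_k w f` (DTW/Key.lean).
PROOF. On `Ou A s i`, `pf B m s l ((A.c i).symm z) = l * (lp m w f z : ℂ)` (`psi_chart`, CIS/Bas); smooth by
`contDiffOn_lp` (CIS/Lps; `(B.smooth i).mono Ou_subset`, `(hs.smooth i).mono Ou_subset`, `st_ne`) and
`contDiffOn_cx`. `pk_pf`: `pk_congr` near `z` (`isOpen_Ou`), `d10_const_mul`, `pk_lp` (`pb_st`). `WW_apply`: unfold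
`WW`, `hamX`, `ham`; it is `sg k * pk k.swap (pf ∘ (A.c i).symm) z` by rfl. `WW_anti`: the sum
`∑ k, WW k * (D_k f / f) = l * ∑ k, sg k * p k.swap * p k` with `p k = D_k f / f`, which is zero by antisymmetry
(`sum_sg_anti` of DTW/Alg.lean with `c = d = p`).
-/

open scoped ContDiff ComplexConjugate Topology
open Complex

namespace Pool.Agent.TWR

open Pool.Agent.DTW Pool.Agent.CIS

variable {n : ℕ} {X : Type*} [TopologicalSpace X] {ι : Type*} {A : Atlas n X ι} {B : Bundle A}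
  {m : ℤ} {s : ι → X → ℂ}

private theorem Psm_near (hs : B.IsSection m s) (l : ℂ) {i : ι} {z : E n} (hz : z ∈ Ou A s i) :
    (pf B m s l ∘ (A.c i).symm) =ᶠ[𝓝 z]
      fun y => l * cx (lp (m : ℝ) (B.wt i) (st A s i)) y := by
  filter_upwards [(isOpen_Ou hs i).mem_nhds hz] with y hy
  simp only [Function.comp_apply, pf]
  rw [psi_chart hs (Ou_subset i hy)]
  rfl

private theorem Psm_lp (hs : B.IsSection m s) (i : ι) :
    ContDiffOn ℝ ∞ (lp (m : ℝ) (B.wt i) (st A s i)) (Ou A s i) :=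
  contDiffOn_lp ((B.smooth i).mono (Ou_subset i)) ((hs.smooth i).mono (Ou_subset i))
    fun _ hy => st_ne hy

theorem SmC_pf (hs : B.IsSection m s) (l : ℂ) : SmC A s (pf B m s l) := by
  intro i z hz
  refine ContDiffAt.contDiffWithinAt ?_
  refine ContDiffAt.congr_of_eventuallyEq ?_ (Psm_near hs l hz)
  exact contDiffAt_const.mul
    (((contDiffOn_cx (Psm_lp hs i)).contDiffAt ((isOpen_Ou hs i).mem_nhds hz)))

theorem pk_pf (hs : B.IsSection m s) (hol : B.IsHol s) (l : ℂ) {i : ι} {z : E n}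
    (hz : z ∈ Ou A s i) (k : Ix n) :
    pk k (pf B m s l ∘ (A.c i).symm) z
      = l * (DD (m : ℝ) (B.wt i) k (st A s i) z / st A s i z) := by
  rw [pk_congr (Psm_near hs l hz)]
  have hd : DifferentiableAt ℝ (cx (lp (m : ℝ) (B.wt i) (st A s i))) z :=
    diffAt_of (isOpen_Ou hs i) (contDiffOn_cx (Psm_lp hs i)) hz
  have h1 := d10_const_mul (a := e k) hd l
  unfold pk
  rw [h1]
  congr 1
  exact pk_lp (isOpen_Ou hs i) ((B.smooth i).mono (Ou_subset i))
    ((hs.smooth i).mono (Ou_subset i)) (fun y hy j => pb_st hol i (Ou_subset i hy) j)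
    (fun y hy => st_ne hy) hz k

theorem WW_apply (hs : B.IsSection m s) (hol : B.IsHol s) (l : ℂ) {i : ι} {z : E n}
    (hz : z ∈ Ou A s i) (k : Ix n) :
    WW B m s l i z k
      = sg k * (l * (DD (m : ℝ) (B.wt i) k.swap (st A s i) z / st A s i z)) := by
  rw [← pk_pf hs hol l hz k.swap]
  rfl

theorem WW_anti (hs : B.IsSection m s) (hol : B.IsHol s) (l : ℂ) {i : ι} {z : E n}
    (hz : z ∈ Ou A s i) :
    ∑ k : Ix n, WW B m s l i z k * (DD (m : ℝ) (B.wt i) k (st A s i) z / st A s i z) = 0 := by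
  obtain ⟨p, hp⟩ : ∃ p : Ix n → ℂ,
      p = fun k => DD (m : ℝ) (B.wt i) k (st A s i) z / st A s i z := ⟨_, rfl⟩
  have h0 := sum_sg_anti p p
  have h1 : ∑ k : Ix n, WW B m s l i z k * (DD (m : ℝ) (B.wt i) k (st A s i) z / st A s i z)
      = l * ∑ k : Ix n, sg k * p k.swap * p k := by
    rw [Finset.mul_sum]
    refine Finset.sum_congr rfl fun k _ => ?_
    rw [WW_apply hs hol l hz k, hp]
    ring
  have h2 : ∑ k : Ix n, sg k * p k.swap * p k = 0 := self_eq_neg.mp h0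
  rw [h1, h2, mul_zero]

end Pool.Agent.TWR
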