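import Pool.Agent.TWR.Loc2
import Pool.Agent.TWR.Psm

/-!
TWR module Glc: the field `WW` is complete on `Off A s`, and `|s|` is constant on its orbits.
-/

open scoped ContDiff ComplexConjugate Topology
open Complex

namespace Pool.Agent.TWR

open Pool.Agent.DTW Pool.Agent.CIS

variable {n : ℕ} {X : Type*} [TopologicalSpace X] [T2Space X] [CompactSpace X] {ι : Type*}
  {A : Atlas n X ι} {B : Bundle A} {m : ℤ} {s : ι → X → ℂ}

omit [T2Space X] [CompactSpace X] in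
private theorem Glc_Ou {γ : ℝ → X} {τ : ℝ} {i : ι} (hi : γ τ ∈ (A.c i).source)
    (h2 : γ τ ∈ Off A s) : A.c i (γ τ) ∈ Ou A s i := by
  refine ⟨(A.c i).map_source hi, ?_⟩
  rw [(A.c i).left_inv hi]
  exact h2

theorem deriv_len (hs : B.IsSection m s) (hol : B.IsHol s) (l : ℂ) {γ : ℝ → X} {τ : ℝ}
    (hγ : IC A (WW B m s l) γ τ) (hoff : γ τ ∈ Off A s) :
    HasDerivAt (fun u => len B m s (γ u)) 0 τ := by
  refine hasDerivAt_len (f := pf B m s l) hs hol hγ fun i hi => ?_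
  have hO : A.c i (γ τ) ∈ Ou A s i := Glc_Ou hi hoff
  have hne := st_ne hO
  have h1 := WW_anti hs hol l hO
  have h2 : ∑ k : Ix n, WW B m s l i (A.c i (γ τ)) k
      * DD (m : ℝ) (B.wt i) k (st A s i) (A.c i (γ τ))
      = st A s i (A.c i (γ τ)) * ∑ k : Ix n, WW B m s l i (A.c i (γ τ)) k
        * (DD (m : ℝ) (B.wt i) k (st A s i) (A.c i (γ τ)) / st A s i (A.c i (γ τ))) := by
    rw [Finset.mul_sum]
    refine Finset.sum_congr rfl fun k _ => ?_
    field_simp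
  show ∑ k : Ix n, WW B m s l i (A.c i (γ τ)) k
      * DD (m : ℝ) (B.wt i) k (st A s i) (A.c i (γ τ)) = 0
  rw [h2, h1, mul_zero]

theorem global_W (hs : B.IsSection m s) (hol : B.IsHol s) (l : ℂ) {x : X} (hx : x ∈ Off A s) :
    ∃ γ : ℝ → X, γ 0 = x ∧ Curve B m s l γ ∧ ∀ τ, len B m s (γ τ) = len B m s x := by
  have hKoff : ∀ y, len B m s y = len B m s x → y ∈ Off A s := by
    intro y hy
    refine (len_pos hs).1 ?_
    rw [hy]
    exact (len_pos hs).2 hx
  have hKc : IsCompact {y | len B m s y = len B m s x} :=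
    (isClosed_eq (continuous_len hs) continuous_const).isCompact
  choose! N hN ε hε H using fun x₀ (hx₀ : x₀ ∈ Off A s) =>
    local_curvesC (A := A) hs (SmC_pf hs l) hx₀
  obtain ⟨t, htK, hcov⟩ := hKc.elim_nhds_subcover N (fun y hy => hN y (hKoff y hy))
  have hne : t.Nonempty := by
    have h := hcov (show x ∈ {y | len B m s y = len B m s x} from rfl)
    simp only [Set.mem_iUnion] at h
    obtain ⟨y, hy, -⟩ := h
    exact ⟨y, hy⟩
  obtain ⟨y₀, hy₀, hmin⟩ := Finset.exists_min_image t ε hne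
  have hε0 : 0 < ε y₀ := hε y₀ (hKoff y₀ (htK y₀ hy₀))
  have HK : ∀ y ∈ {y | len B m s y = len B m s x}, ∃ γ : ℝ → X, γ 0 = y ∧
      ∀ τ ∈ Set.Ioo (-(ε y₀)) (ε y₀), IC A (WW B m s l) γ τ ∧
        γ τ ∈ {y | len B m s y = len B m s x} := by
    intro y hy
    have h := hcov hy
    simp only [Set.mem_iUnion] at h
    obtain ⟨y', hy', hyN⟩ := h
    obtain ⟨γ, hγ0, hγ⟩ := H y' (hKoff y' (htK y' hy')) y hyN
    have hle := hmin y' hy'
    have hsub : ∀ τ ∈ Set.Ioo (-(ε y₀)) (ε y₀), τ ∈ Set.Ioo (-(ε y')) (ε y') :=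
      fun τ hτ => ⟨by linarith [hτ.1], by linarith [hτ.2]⟩
    refine ⟨γ, hγ0, fun τ hτ => ⟨(hγ τ (hsub τ hτ)).1, ?_⟩⟩
    have hd : ∀ u ∈ Set.Ioo (-(ε y₀)) (ε y₀),
        HasDerivAt (fun u => len B m s (γ u)) 0 u := fun u hu =>
      deriv_len hs hol l (hγ u (hsub u hu)).1 (hγ u (hsub u hu)).2
    have hc : (fun u => len B m s (γ u)) τ = (fun u => len B m s (γ u)) 0 :=
      isOpen_Ioo.is_const_of_deriv_eq_zero isPreconnected_Ioo
        (fun u hu => (hd u hu).differentiableAt.differentiableWithinAt)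
        (fun u hu => (hd u hu).deriv) hτ ⟨by linarith, hε0⟩
    simp only [hγ0] at hc
    show len B m s (γ τ) = len B m s x
    rw [hc]
    exact hy
  obtain ⟨γ, hγ0, hγ⟩ := global_curve hε0 HK (show x ∈ {y | len B m s y = len B m s x} from rfl)
  exact ⟨γ, hγ0, fun τ => ⟨(hγ τ).1, hKoff _ (hγ τ).2⟩, fun τ => (hγ τ).2⟩

end Pool.Agent.TWR
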