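import Pool.Agent.TWR.Defs

/-!
TWR module Hch (size 3): Hamiltonian fields of smooth (not nec. holomorphic) functions.
PROOF. Copy of CIS/Inv.lean (`ham_chart`, `ham_smooth`, delivered), with `SmC A s f` instead of
`HolOff A s f`: only real differentiability of `f ∘ (A.c j).symm` is used in `d10_comp`
(DTW/Chg.lean). `SmC.cont`: at `x ∈ Off A s` take a chart `i` at `x` (`ix A x`): near `x`,
`f = (f ∘ (A.c i).symm) ∘ A.c i` (`left_inv` on the open source).
-/

open scoped ContDiff ComplexConjugate Topology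
open Complex

namespace Pool.Agent.TWR

open Pool.Agent.DTW Pool.Agent.CIS

variable {n : ℕ} {X : Type*} [TopologicalSpace X] {ι : Type*} {A : Atlas n X ι} {B : Bundle A}
  {m : ℤ} {s : ι → X → ℂ}

theorem hamC_chart (hs : B.IsSection m s) {f : X → ℂ} (hf : SmC A s f) {i j : ι} {z : E n}
    (hz : z ∈ Uo A i j) (hz' : (A.c i).symm z ∈ Off A s) :
    fderiv ℂ (ph A i j) z (hamX A f i z) = hamX A f j (ph A i j z) := by
  have hzj : ph A i j z ∈ Ou A s j := by
    refine ⟨ph_mem hz, ?_⟩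
    rw [symm_ph hz]
    exact hz'
  have hφ : DifferentiableAt ℂ (ph A i j) z :=
    ((contDiffOn_ph A i j).contDiffAt ((isOpen_Uo A i j).mem_nhds hz)).differentiableAt (by simp)
  have hG : DifferentiableAt ℝ (f ∘ (A.c j).symm) (ph A i j z) :=
    diffAt_of (isOpen_Ou hs j) (hf j) hzj
  have h1 : (f ∘ (A.c i).symm) =ᶠ[𝓝 z] fun y => (f ∘ (A.c j).symm) (ph A i j y) := by
    filter_upwards [(isOpen_Uo A i j).mem_nhds hz] with y hy
    show f ((A.c i).symm y) = f ((A.c j).symm (ph A i j y))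
    rw [symm_ph hy]
  have hsym : ∀ a b : E n, S (fderiv ℂ (ph A i j) z a) (fderiv ℂ (ph A i j) z b) = S a b :=
    fun a b => A.symp i j z hz.1 hz.2 a b
  have hinj : Function.Injective (fderiv ℂ (ph A i j) z : E n →ₗ[ℂ] E n) := by
    intro a a' haa
    refine S_ext fun b => ?_
    have haa' : fderiv ℂ (ph A i j) z a = fderiv ℂ (ph A i j) z a' := haa
    rw [← hsym a b, ← hsym a' b, haa']
  have hsur : Function.Surjective (fderiv ℂ (ph A i j) z : E n →ₗ[ℂ] E n) :=
    LinearMap.injective_iff_surjective.1 hinj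
  refine S_ext fun c => ?_
  obtain ⟨b, hb⟩ := hsur c
  have hb' : fderiv ℂ (ph A i j) z b = c := hb
  rw [← hb', hsym]
  unfold hamX
  rw [S_ham, S_ham, d10_congr h1, d10_comp hφ hG]

theorem hamC_smooth (hs : B.IsSection m s) {f : X → ℂ} (hf : SmC A s f) (i : ι) :
    ContDiffOn ℝ ∞ (hamX A f i) (Ou A s i) := by
  rw [contDiffOn_pi]
  intro k
  exact contDiffOn_const.mul (contDiffOn_d10 (isOpen_Ou hs i) (hf i) (e k.swap))

end Pool.Agent.TWR
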