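import Pool.Agent.TWR.Unq
import Pool.Agent.TWR.Glc
import Pool.Agent.TWR.Hch

/-!
TWR module Flw (size 4): the flow `Fl` of the field `WW`.
PROOF. `global_W` (module Glc) gives the existence in the definition of `Fl`, so `dif_pos` and
`Exists.choose_spec`: `u ↦ Fl B m s l u x` is a curve `γ` with `γ 0 = x` and `Curve B m s l γ` (`Fl_curve`). Uniqueness
`curve_unique` (module Unq, with `V = WW B m s l`, smooth by `hamC_smooth`, `SmC_pf`; on `Ioo (-(|τ| + 1)) (|τ| + 1)`)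
gives `Fl_unique` (`hε`: local version on `Ioo (-ε) ε`), hence `Fl_len` (compare with the curve of `global_W`)
and `Fl_add`: both `u ↦ Fl (u + τ') x` and `u ↦ Fl u (Fl τ' x)` are global curves with the same value at `u = 0`
(`IC.shift` of CIS/Ccn with `a = -τ'`). `Fl_zero`: `γ 0 = x`.
-/

open scoped ContDiff ComplexConjugate Topology
open Complex

namespace Pool.Agent.TWR

open Pool.Agent.DTW Pool.Agent.CIS

variable {n : ℕ} {X : Type*} [TopologicalSpace X] [T2Space X] [CompactSpace X] {ι : Type*}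
  {A : Atlas n X ι} {B : Bundle A} {m : ℤ} {s : ι → X → ℂ}

private theorem Flw_ex (hs : B.IsSection m s) (hol : B.IsHol s) (l : ℂ) {x : X}
    (hx : x ∈ Off A s) : ∃ γ : ℝ → X, γ 0 = x ∧ Curve B m s l γ := by
  obtain ⟨γ, h0, h1, _⟩ := global_W hs hol l hx
  exact ⟨γ, h0, h1⟩

private theorem Flw_eq (hs : B.IsSection m s) (hol : B.IsHol s) (l : ℂ) {x : X}
    (hx : x ∈ Off A s) (u : ℝ) : Fl B m s l u x = (Flw_ex hs hol l hx).choose u := by
  unfold Fl
  rw [dif_pos (Flw_ex hs hol l hx)]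

theorem Fl_zero (hs : B.IsSection m s) (hol : B.IsHol s) (l : ℂ) {x : X} (hx : x ∈ Off A s) :
    Fl B m s l 0 x = x := by
  rw [Flw_eq hs hol l hx]
  exact (Flw_ex hs hol l hx).choose_spec.1

theorem Fl_curve (hs : B.IsSection m s) (hol : B.IsHol s) (l : ℂ) {x : X} (hx : x ∈ Off A s) :
    Curve B m s l (fun u => Fl B m s l u x) := by
  have h : (fun u => Fl B m s l u x) = (Flw_ex hs hol l hx).choose :=
    funext fun u => Flw_eq hs hol l hx u
  rw [h]
  exact (Flw_ex hs hol l hx).choose_spec.2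

theorem Fl_unique (hs : B.IsSection m s) (hol : B.IsHol s) (l : ℂ) {x : X} (hx : x ∈ Off A s)
    {γ : ℝ → X} (h0 : γ 0 = x) {ε : ℝ}
    (hγ : ∀ τ ∈ Set.Ioo (-ε) ε, IC A (WW B m s l) γ τ ∧ γ τ ∈ Off A s) {τ : ℝ}
    (hτ : τ ∈ Set.Ioo (-ε) ε) : Fl B m s l τ x = γ τ := by
  have hε : 0 < ε := by
    have h1 := hτ.1
    have h2 := hτ.2
    linarith
  exact curve_unique (V := WW B m s l) (γ₁ := fun u => Fl B m s l u x) (γ₂ := γ) hs
    (fun i => hamC_smooth hs (SmC_pf hs l) i) (neg_neg_of_pos hε) hε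
    (fun u _ => Fl_curve hs hol l hx u) hγ ((Fl_zero hs hol l hx).trans h0.symm) hτ

private theorem Flw_mem (τ : ℝ) : τ ∈ Set.Ioo (-(|τ| + 1)) (|τ| + 1) := by
  have h1 := neg_abs_le τ
  have h2 := le_abs_self τ
  constructor <;> linarith

theorem Fl_len (hs : B.IsSection m s) (hol : B.IsHol s) (l : ℂ) {x : X} (hx : x ∈ Off A s)
    (τ : ℝ) : len B m s (Fl B m s l τ x) = len B m s x := by
  obtain ⟨γ, h0, h1, h2⟩ := global_W hs hol l hx
  rw [Fl_unique hs hol l hx h0 (fun u _ => h1 u) (Flw_mem τ), h2]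

theorem Fl_add (hs : B.IsSection m s) (hol : B.IsHol s) (l : ℂ) {x : X} (hx : x ∈ Off A s)
    (τ τ' : ℝ) : Fl B m s l (τ + τ') x = Fl B m s l τ (Fl B m s l τ' x) := by
  have hc := Fl_curve hs hol l hx
  have hx' : Fl B m s l τ' x ∈ Off A s := (hc τ').2
  have h := Fl_unique hs hol l hx' (γ := fun u => Fl B m s l (u + τ') x)
    (by rw [zero_add]) (ε := |τ| + 1) (fun u _ => ⟨?_, (hc (u + τ')).2⟩) (Flw_mem τ)
  · exact h.symm
  · have h1 : IC A (WW B m s l) (fun u => Fl B m s l u x) (u - -τ') := by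
      rw [sub_neg_eq_add]
      exact (hc (u + τ')).1
    have h2 := IC.shift h1
    simpa only [sub_neg_eq_add] using h2

end Pool.Agent.TWR
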