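import Pool.Agent.TWR.Thx

/-!
TWR module Gch (size 4): the property `Good` can be checked in one pair of charts, and composes.
PROOF. Notation `F_ij = fun y => A.c j (F ((A.c i).symm y))`, `z_i = A.c i x`.
`good_of_chart`: let `i'`, `j'` be other charts at `x` and `F x`. Near `z_i'` (for `y` near `z_i'`: `y ∈ Uo A i' i`,
and `F ((A.c i').symm y) ∈ (A.c j).source` by continuity of `F` at `x = (A.c i').symm z_i'` and of `(A.c i').symm`),
`F_i'j' y = ph A j j' (F_ij (ph A i' i y))` (`symm_ph`, `ph_chart` of DTW/Glo.lean). So `F_i'j'` is `C¹` at `z_i'`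
(`ContDiffAt.comp`, `contDiffOn_ph`, `ContDiffAt.congr_of_eventuallyEq`), its derivative is
`D(ph A j j') ∘ D F_ij ∘ D(ph A i' i)` (`fderiv_comp`, `Filter.EventuallyEq.fderiv_eq`), and the two identities follow
from `S_ph`, `th_ph` (module Thx; `ph A i' i z_i' = z_i`, `ph A j j' (A.c j (F x)) = A.c j' (F x)`), used for
`i' → i` and `j → j'`.
`good_comp`: let `i` be a chart at `x`, `j` at `G (F x)`; put `k = ix A (F x)`. Near `z_i`,
`(G ∘ F)_ij = G_kj ∘ F_ik` (`F` is continuous at `x`, `left_inv` for `A.c k`); chain rule;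
`S (D(G∘F) a) (D(G∘F) b) = S (DF a) (DF b) + t' * th (B.wt k) _ (DF a) (DF b) = S a b + t * th a b + t' * th a b`.
-/

open scoped ContDiff ComplexConjugate Topology
open Complex

namespace Pool.Agent.TWR

open Pool.Agent.DTW Pool.Agent.CIS

variable {n : ℕ} {X : Type*} [TopologicalSpace X] {ι : Type*} {A : Atlas n X ι}

private theorem Gch_symm_cont {i : ι} {x : X} (hi : x ∈ (A.c i).source) :
    ContinuousAt (fun y => (A.c i).symm y) (A.c i x) :=
  (A.c i).symm.continuousAt ((A.c i).map_source hi)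

private theorem Gch_ph_diff {i j : ι} {x : X} (hi : x ∈ (A.c i).source)
    (hj : x ∈ (A.c j).source) : ContDiffAt ℝ 1 (ph A i j) (A.c i x) := by
  have h1 : ContDiffAt ℂ ∞ (ph A i j) (A.c i x) :=
    (contDiffOn_ph A i j).contDiffAt ((isOpen_Uo A i j).mem_nhds (mem_Uo hi hj))
  exact (h1.restrict_scalars ℝ).of_le (by simp)

private theorem Gch_comp {f g : E n → E n} {z w : E n} (hf : ContDiffAt ℝ 1 f z)
    (hw : f z = w) (hg : ContDiffAt ℝ 1 g w) :
    ContDiffAt ℝ 1 (fun y => g (f y)) z ∧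
      ∀ a, fderiv ℝ (fun y => g (f y)) z a = fderiv ℝ g w (fderiv ℝ f z a) := by
  subst hw
  refine ⟨ContDiffAt.comp z hg hf, fun a => ?_⟩
  have h1 := (hg.differentiableAt (by simp)).hasFDerivAt.comp z
    (hf.differentiableAt (by simp)).hasFDerivAt
  have h2 : fderiv ℝ (fun y => g (f y)) z = _ := h1.fderiv
  rw [h2]
  rfl

theorem good_of_chart (B : Bundle A) {t : ℂ} {F : X → X} {x : X} (hF : ContinuousAt F x) {i j : ι}
    (hi : x ∈ (A.c i).source) (hj : F x ∈ (A.c j).source)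
    (h1 : ContDiffAt ℝ 1 (fun y => A.c j (F ((A.c i).symm y))) (A.c i x))
    (h2 : ∀ a b : E n, S (fderiv ℝ (fun y => A.c j (F ((A.c i).symm y))) (A.c i x) a)
        (fderiv ℝ (fun y => A.c j (F ((A.c i).symm y))) (A.c i x) b)
      = S a b + t * th (B.wt i) (A.c i x) a b)
    (h3 : ∀ a b : E n, th (B.wt j) (A.c j (F x))
        (fderiv ℝ (fun y => A.c j (F ((A.c i).symm y))) (A.c i x) a)
        (fderiv ℝ (fun y => A.c j (F ((A.c i).symm y))) (A.c i x) b)
      = th (B.wt i) (A.c i x) a b) :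
    Good B t F x := by
  refine ⟨hF, fun i' j' hi' hj' => ?_⟩
  have hz : A.c i' x ∈ Uo A i' i := mem_Uo hi' hi
  have hzz : A.c j (F x) ∈ Uo A j j' := mem_Uo hj hj'
  have hsx : (A.c i').symm (A.c i' x) = x := (A.c i').left_inv hi'
  have hsx2 : (A.c i).symm (A.c i x) = x := (A.c i).left_inv hi
  have hev : (fun y => A.c j' (F ((A.c i').symm y))) =ᶠ[𝓝 (A.c i' x)] fun y =>
      ph A j j' ((fun y => A.c j (F ((A.c i).symm y))) (ph A i' i y)) := by
    have h4 : ContinuousAt (fun y => F ((A.c i').symm y)) (A.c i' x) :=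
      ContinuousAt.comp (g := F) (f := fun y => (A.c i').symm y) (by rw [hsx]; exact hF)
        (Gch_symm_cont hi')
    have h5 : ∀ᶠ y in 𝓝 (A.c i' x), F ((A.c i').symm y) ∈ (A.c j).source := by
      refine h4.eventually_mem ((A.c j).open_source.mem_nhds ?_)
      show F ((A.c i').symm (A.c i' x)) ∈ _
      rw [hsx]
      exact hj
    filter_upwards [(isOpen_Uo A i' i).mem_nhds hz, h5] with y hy hy2
    show _ = ph A j j' (A.c j (F ((A.c i).symm (ph A i' i y))))
    rw [symm_ph hy, ph_chart hy2]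
  have hφ : ContDiffAt ℝ 1 (ph A i' i) (A.c i' x) := Gch_ph_diff hi' hi
  have hφx : ph A i' i (A.c i' x) = A.c i x := ph_chart hi'
  have hψ : ContDiffAt ℝ 1 (ph A j j') (A.c j (F x)) := Gch_ph_diff hj hj'
  have hψx : ph A j j' (A.c j (F x)) = A.c j' (F x) := ph_chart hj
  have hFx : (fun y => A.c j (F ((A.c i).symm y))) (A.c i x) = A.c j (F x) := by
    show A.c j (F ((A.c i).symm (A.c i x))) = _
    rw [hsx2]
  have hFφ : (fun y => A.c j (F ((A.c i).symm y))) (ph A i' i (A.c i' x)) = A.c j (F x) := by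
    rw [hφx, hFx]
  obtain ⟨h6, h6d⟩ := Gch_comp hφ hφx h1
  have hFφ' : (fun y => (fun y => A.c j (F ((A.c i).symm y))) (ph A i' i y)) (A.c i' x)
      = A.c j (F x) := hFφ
  obtain ⟨h7, h7d⟩ := Gch_comp h6 hFφ' hψ
  have hder : ∀ a, fderiv ℝ (fun y => A.c j' (F ((A.c i').symm y))) (A.c i' x) a
      = fderiv ℝ (ph A j j') (A.c j (F x)) (fderiv ℝ (fun y => A.c j (F ((A.c i).symm y)))
        (A.c i x) (fderiv ℝ (ph A i' i) (A.c i' x) a)) := by
    intro a
    rw [hev.fderiv_eq, h7d, h6d]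
  refine ⟨h7.congr_of_eventuallyEq hev, fun a b => ?_, fun a b => ?_⟩
  · rw [hder, hder, S_ph hzz, h2, S_ph hz]
    have h14 := th_ph B hz a b
    rw [hφx] at h14
    rw [h14]
  · have h15 := th_ph B hzz (fderiv ℝ (fun y => A.c j (F ((A.c i).symm y)))
        (A.c i x) (fderiv ℝ (ph A i' i) (A.c i' x) a))
      (fderiv ℝ (fun y => A.c j (F ((A.c i).symm y)))
        (A.c i x) (fderiv ℝ (ph A i' i) (A.c i' x) b))
    rw [hψx] at h15
    rw [hder, hder, h15, h3]
    have h14 := th_ph B hz a b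
    rw [hφx] at h14
    exact h14

theorem good_comp (B : Bundle A) {t t' : ℂ} {F G : X → X} {x : X} (hF : Good B t F x)
    (hG : Good B t' G (F x)) : Good B (t + t') (fun y => G (F y)) x := by
  refine ⟨ContinuousAt.comp (g := G) hG.1 hF.1, fun i j hi hj => ?_⟩
  have hk := mem_ix A (F x)
  obtain ⟨f1, f2, f3⟩ := hF.2 i (ix A (F x)) hi hk
  obtain ⟨g1, g2, g3⟩ := hG.2 (ix A (F x)) j hk hj
  have hsx : (A.c i).symm (A.c i x) = x := (A.c i).left_inv hi
  have hev : (fun y => A.c j (G (F ((A.c i).symm y)))) =ᶠ[𝓝 (A.c i x)] fun y =>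
      (fun y => A.c j (G ((A.c (ix A (F x))).symm y)))
        ((fun y => A.c (ix A (F x)) (F ((A.c i).symm y))) y) := by
    have h4 : ContinuousAt (fun y => F ((A.c i).symm y)) (A.c i x) :=
      ContinuousAt.comp (g := F) (f := fun y => (A.c i).symm y) (by rw [hsx]; exact hF.1)
        (Gch_symm_cont hi)
    have h5 : ∀ᶠ y in 𝓝 (A.c i x), F ((A.c i).symm y) ∈ (A.c (ix A (F x))).source := by
      refine h4.eventually_mem ((A.c (ix A (F x))).open_source.mem_nhds ?_)
      show F ((A.c i).symm (A.c i x)) ∈ _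
      rw [hsx]
      exact hk
    filter_upwards [h5] with y hy
    show _ = A.c j (G ((A.c (ix A (F x))).symm (A.c (ix A (F x)) (F ((A.c i).symm y)))))
    rw [(A.c (ix A (F x))).left_inv hy]
  have hFx : (fun y => A.c (ix A (F x)) (F ((A.c i).symm y))) (A.c i x)
      = A.c (ix A (F x)) (F x) := by
    show A.c (ix A (F x)) (F ((A.c i).symm (A.c i x))) = _
    rw [hsx]
  obtain ⟨h7, h7d⟩ := Gch_comp f1 hFx g1
  have hder : ∀ a, fderiv ℝ (fun y => A.c j (G (F ((A.c i).symm y)))) (A.c i x) a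
      = fderiv ℝ (fun y => A.c j (G ((A.c (ix A (F x))).symm y))) (A.c (ix A (F x)) (F x))
        (fderiv ℝ (fun y => A.c (ix A (F x)) (F ((A.c i).symm y))) (A.c i x) a) := by
    intro a
    rw [hev.fderiv_eq, h7d]
  refine ⟨h7.congr_of_eventuallyEq hev, fun a b => ?_, fun a b => ?_⟩
  · rw [hder, hder, g2, f2, f3]
    ring
  · rw [hder, hder, g3, f3]

theorem good_congr (B : Bundle A) {t : ℂ} {F G : X → X} {x : X} (hF : Good B t F x)
    (h : F =ᶠ[𝓝 x] G) : Good B t G x := by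
  have hx : F x = G x := h.eq_of_nhds
  refine ⟨hF.1.congr h, fun i j hi hj => ?_⟩
  have hj' : F x ∈ (A.c j).source := by
    rw [hx]
    exact hj
  obtain ⟨f1, f2, f3⟩ := hF.2 i j hi hj'
  have hsx : (A.c i).symm (A.c i x) = x := (A.c i).left_inv hi
  have hev : (fun y => A.c j (G ((A.c i).symm y))) =ᶠ[𝓝 (A.c i x)]
      fun y => A.c j (F ((A.c i).symm y)) := by
    have h4 : Filter.Tendsto (fun y => (A.c i).symm y) (𝓝 (A.c i x)) (𝓝 x) := by
      have h5 := Gch_symm_cont (A := A) hi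
      unfold ContinuousAt at h5
      have h6 : (fun y => (A.c i).symm y) (A.c i x) = x := hsx
      rwa [h6] at h5
    filter_upwards [h4.eventually h] with y hy
    rw [hy]
  refine ⟨f1.congr_of_eventuallyEq hev, fun a b => ?_, fun a b => ?_⟩
  · rw [hev.fderiv_eq]
    exact f2 a b
  · rw [hev.fderiv_eq, ← hx]
    exact f3 a b

end Pool.Agent.TWR
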