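import Pool.Agent.TWR.Kth
import Pool.Agent.TWR.Hch

/-!
TWR module Pbk: the forms along the flow, in one chart.
-/

open scoped ContDiff ComplexConjugate Topology
open Complex

namespace Pool.Agent.TWR

open Pool.Agent.DTW Pool.Agent.CIS

variable {n : ℕ} {X : Type*} [TopologicalSpace X] {ι : Type*} {A : Atlas n X ι} {B : Bundle A}
  {m : ℤ} {s : ι → X → ℂ}

private theorem Pbk_const {ε : ℝ} {f : ℝ → ℂ} {c : ℂ}
    (h : ∀ τ ∈ Set.Ioo (-ε) ε, HasDerivAt f c τ) {τ : ℝ} (hτ : τ ∈ Set.Ioo (-ε) ε) :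
    f τ = f 0 + τ * c := by
  have hε : 0 < ε := by
    have := hτ.1.trans hτ.2
    linarith
  have hd : ∀ u ∈ Set.Ioo (-ε) ε, HasDerivAt (fun u : ℝ => f u - u * c) 0 u := by
    intro u hu
    have h1 := (h u hu).sub ((Complex.ofRealCLM.hasDerivAt (x := u)).mul_const c)
    have h2 : c - Complex.ofRealCLM 1 * c = 0 := by simp
    rw [h2] at h1
    exact h1
  have hc : (fun u : ℝ => f u - u * c) τ = (fun u : ℝ => f u - u * c) 0 :=
    isOpen_Ioo.is_const_of_deriv_eq_zero isPreconnected_Ioo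
      (fun u hu => (hd u hu).differentiableAt.differentiableWithinAt)
      (fun u hu => (hd u hu).deriv) hτ ⟨by linarith, hε⟩
  simp only [Complex.ofReal_zero, zero_mul, sub_zero] at hc
  linear_combination hc

private theorem Pbk_S {a b : ℝ → E n} {a' b' : E n} {τ : ℝ} (ha : HasDerivAt a a' τ)
    (hb : HasDerivAt b b' τ) :
    HasDerivAt (fun u => S (a u) (b u)) (S a' (b τ) + S (a τ) b') τ := by
  have hak : ∀ k, HasDerivAt (fun u => a u k) (a' k) τ := fun k => (hasDerivAt_pi.1 ha) k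
  have hbk : ∀ k, HasDerivAt (fun u => b u k) (b' k) τ := fun k => (hasDerivAt_pi.1 hb) k
  have h1 : HasDerivAt (fun u => ∑ k : Ix n, sg k * a u k * b u k.swap)
      (∑ k : Ix n, (sg k * a' k * b τ k.swap + sg k * a τ k * b' k.swap)) τ :=
    HasDerivAt.fun_sum fun k _ => ((hak k).const_mul (sg k)).mul (hbk k.swap)
  have h2 : (fun u => S (a u) (b u)) = fun u => ∑ k : Ix n, sg k * a u k * b u k.swap := by
    funext u
    exact S_eq _ _
  rw [h2, S_eq, S_eq, ← Finset.sum_add_distrib]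
  exact h1

private theorem Pbk_th {U : Set (E n)} {w : E n → ℝ} (hU : IsOpen U) (hw : ContDiffOn ℝ ∞ w U)
    {α a b : ℝ → E n} {α' a' b' : E n} {τ : ℝ} (hα : HasDerivAt α α' τ) (hz : α τ ∈ U)
    (ha : HasDerivAt a a' τ) (hb : HasDerivAt b b' τ) :
    HasDerivAt (fun u => th w (α u) (a u) (b u))
      (fderiv ℝ (fun y => th w y (a τ) (b τ)) (α τ) α' + th w (α τ) a' (b τ)
        + th w (α τ) (a τ) b') τ := by
  have hwz : ContDiffAt ℝ ∞ w (α τ) := hw.contDiffAt (hU.mem_nhds hz)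
  set F : E n × E n × E n → ℂ := fun p => th w p.1 p.2.1 p.2.2 with hF
  have hop : IsOpen {p : E n × E n × E n | p.1 ∈ U} := hU.preimage continuous_fst
  have hFd : DifferentiableAt ℝ F (α τ, a τ, b τ) :=
    ((th_smooth hU hw).contDiffAt (hop.mem_nhds hz)).differentiableAt (by simp)
  have hc : HasDerivAt (fun u => (α u, a u, b u)) (α', a', b') τ := hα.prodMk (ha.prodMk hb)
  have h1 := hFd.hasFDerivAt.comp_hasDerivAt τ hc
  have e0 : ((α', a', b') : E n × E n × E n)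
      = (α', 0, 0) + (0, a', 0) + (0, 0, b') := by simp
  -- the three partial derivatives
  have p1 : fderiv ℝ F (α τ, a τ, b τ) (α', 0, 0)
      = fderiv ℝ (fun y => th w y (a τ) (b τ)) (α τ) α' := by
    have hg : HasFDerivAt (fun y : E n => (y, a τ, b τ))
        ((ContinuousLinearMap.id ℝ (E n)).prod (0 : E n →L[ℝ] E n × E n)) (α τ) :=
      (hasFDerivAt_id (𝕜 := ℝ) (α τ)).prodMk (hasFDerivAt_const (𝕜 := ℝ) ((a τ, b τ) : E n × E n) (α τ))
    have h2 := (hFd.hasFDerivAt.comp (α τ) hg).fderiv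
    have h3 : (F ∘ fun y : E n => (y, a τ, b τ)) = fun y => th w y (a τ) (b τ) := rfl
    rw [h3] at h2
    rw [h2]
    rfl
  have p2 : fderiv ℝ F (α τ, a τ, b τ) (0, a', 0) = th w (α τ) a' (b τ) := by
    have hg : HasDerivAt (fun t : ℝ => (α τ, a τ + t • a', b τ)) ((0 : E n), a', (0 : E n)) 0 := by
      have h3 : HasDerivAt (fun t : ℝ => a τ + t • a') a' 0 := by
        have h4 := ((hasDerivAt_id (0 : ℝ)).smul_const a').const_add (a τ)
        simpa using h4
      exact (hasDerivAt_const (0 : ℝ) (α τ)).prodMk (h3.prodMk (hasDerivAt_const (0 : ℝ) (b τ)))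
    have hF0 : HasFDerivAt F (fderiv ℝ F (α τ, a τ, b τ)) (α τ, a τ + (0 : ℝ) • a', b τ) := by
      rw [zero_smul, add_zero]
      exact hFd.hasFDerivAt
    have h4 := hF0.comp_hasDerivAt (0 : ℝ) hg
    have h5 : (F ∘ fun t : ℝ => (α τ, a τ + t • a', b τ))
        = fun t : ℝ => th w (α τ) (a τ) (b τ) + (t : ℂ) * th w (α τ) a' (b τ) := by
      funext t
      show th w (α τ) (a τ + t • a') (b τ) = _
      rw [th_add hwz, th_smul hwz]
    rw [h5] at h4
    have h6 : HasDerivAt (fun t : ℝ => th w (α τ) (a τ) (b τ) + (t : ℂ) * th w (α τ) a' (b τ))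
        (th w (α τ) a' (b τ)) 0 := by
      have h7 := ((Complex.ofRealCLM.hasDerivAt (x := (0 : ℝ))).mul_const
        (th w (α τ) a' (b τ))).const_add (th w (α τ) (a τ) (b τ))
      simpa using h7
    exact h4.unique h6
  have p3 : fderiv ℝ F (α τ, a τ, b τ) (0, 0, b') = th w (α τ) (a τ) b' := by
    have hg : HasDerivAt (fun t : ℝ => (α τ, a τ, b τ + t • b')) ((0 : E n), (0 : E n), b') 0 := by
      have h3 : HasDerivAt (fun t : ℝ => b τ + t • b') b' 0 := by
        have h4 := ((hasDerivAt_id (0 : ℝ)).smul_const b').const_add (b τ)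
        simpa using h4
      exact (hasDerivAt_const (0 : ℝ) (α τ)).prodMk ((hasDerivAt_const (0 : ℝ) (a τ)).prodMk h3)
    have hF0 : HasFDerivAt F (fderiv ℝ F (α τ, a τ, b τ)) (α τ, a τ, b τ + (0 : ℝ) • b') := by
      rw [zero_smul, add_zero]
      exact hFd.hasFDerivAt
    have h4 := hF0.comp_hasDerivAt (0 : ℝ) hg
    have h5 : (F ∘ fun t : ℝ => (α τ, a τ, b τ + t • b'))
        = fun t : ℝ => th w (α τ) (a τ) (b τ) + (t : ℂ) * th w (α τ) (a τ) b' := by
      funext t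
      show th w (α τ) (a τ) (b τ + t • b') = _
      rw [th_anti, th_add hwz, th_smul hwz, th_anti w (α τ) (b τ) (a τ),
        th_anti w (α τ) b' (a τ)]
      ring
    rw [h5] at h4
    have h6 : HasDerivAt (fun t : ℝ => th w (α τ) (a τ) (b τ) + (t : ℂ) * th w (α τ) (a τ) b')
        (th w (α τ) (a τ) b') 0 := by
      have h7 := ((Complex.ofRealCLM.hasDerivAt (x := (0 : ℝ))).mul_const
        (th w (α τ) (a τ) b')).const_add (th w (α τ) (a τ) (b τ))
      simpa using h7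
    exact h4.unique h6
  have hval : fderiv ℝ F (α τ, a τ, b τ) (α', a', b')
      = fderiv ℝ (fun y => th w y (a τ) (b τ)) (α τ) α' + th w (α τ) a' (b τ)
        + th w (α τ) (a τ) b' := by
    rw [e0, map_add, map_add, p1, p2, p3]
  rw [← hval]
  exact h1

theorem pull_back (hs : B.IsSection m s) (hol : B.IsHol s) (l : ℂ) {i : ι}
    (hker : ∀ z ∈ Ou A s i, ∀ b : E n, th (B.wt i) z (WW B m s l i z) b = 0)
    {ε : ℝ} {α : ℝ → E n} {M : ℝ → E n →L[ℝ] E n} (h0 : M 0 = ContinuousLinearMap.id ℝ (E n))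
    (hα : ∀ τ ∈ Set.Ioo (-ε) ε, α τ ∈ Ou A s i ∧ HasDerivAt α (WW B m s l i (α τ)) τ ∧
      HasDerivAt M ((fderiv ℝ (WW B m s l i) (α τ)).comp (M τ)) τ)
    {τ : ℝ} (hτ : τ ∈ Set.Ioo (-ε) ε) (a b : E n) :
    S (M τ a) (M τ b) = S a b + τ * l * m * th (B.wt i) (α 0) a b ∧
      th (B.wt i) (α τ) (M τ a) (M τ b) = th (B.wt i) (α 0) a b := by
  have hO : IsOpen (Ou A s i) := isOpen_Ou hs i
  have hw : ContDiffOn ℝ ∞ (B.wt i) (Ou A s i) := (B.smooth i).mono fun z hz => hz.1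
  have hW : ContDiffOn ℝ ∞ (WW B m s l i) (Ou A s i) := hamC_smooth hs (SmC_pf hs l) i
  have hM : ∀ (c : E n), ∀ u ∈ Set.Ioo (-ε) ε,
      HasDerivAt (fun v => M v c) (fderiv ℝ (WW B m s l i) (α u) (M u c)) u := by
    intro c u hu
    have h1 := (hα u hu).2.2.clm_apply (hasDerivAt_const u c)
    simpa using h1
  have hq : ∀ u ∈ Set.Ioo (-ε) ε,
      HasDerivAt (fun v => th (B.wt i) (α v) (M v a) (M v b)) 0 u := by
    intro u hu
    have h1 := Pbk_th hO hw (hα u hu).2.1 (hα u hu).1 (hM a u hu) (hM b u hu)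
    have h2 := th_lie hO hw hW hker (hα u hu).1 (M u a) (M u b)
    rw [h2] at h1
    exact h1
  have hM0 : ∀ c : E n, M 0 c = c := by
    intro c
    rw [h0]
    rfl
  have hqc : ∀ u ∈ Set.Ioo (-ε) ε, th (B.wt i) (α u) (M u a) (M u b)
      = th (B.wt i) (α 0) a b := by
    intro u hu
    have h1 := Pbk_const hq hu
    simp only [mul_zero, add_zero, hM0] at h1
    exact h1
  refine ⟨?_, hqc τ hτ⟩
  have hp : ∀ u ∈ Set.Ioo (-ε) ε,
      HasDerivAt (fun v => S (M v a) (M v b)) (l * m * th (B.wt i) (α 0) a b) u := by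
    intro u hu
    have h1 := Pbk_S (hM a u hu) (hM b u hu)
    have h2 := S_lieW hs hol l (hα u hu).1 (M u a) (M u b)
    rw [h2, hqc u hu] at h1
    exact h1
  have h1 := Pbk_const hp hτ
  simp only [hM0] at h1
  rw [h1]
  ring

end Pool.Agent.TWR
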