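import Mathlib

/-!
TWR module Vra (size 5): flow and variational equation on a small ball; only Mathlib.
PROOF. (1) General lemma (as CIS/Ode.lean, `ode_open`, delivered by helper84; same proof in a finite
dimensional normed space `H`): if `G : H → H` is `C¹` on an open set `P` and `h₀ ∈ P`, there are `r, ε > 0` and
`β : H × ℝ → H`, continuous on `closedBall h₀ r ×ˢ Ioo (-ε) ε`, with values in `P`, `β (h, 0) = h`,
`HasDerivAt (fun t => β (h, t)) (G (β (h, t))) t`. (`IsPicardLindelof.of_contDiffAt_one`,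
`IsPicardLindelof.exists_forall_mem_closedBall_eq_hasDerivWithinAt_continuousOn`.)
(2) Choose a closed ball `K = closedBall x₀ ρ ⊆ O` (compact, convex). Apply (1) in
`H = V × (V →L[ℝ] V)` to `G (x, A) = (f x, (fderiv ℝ f x).comp A)`, `C¹` on `P = ball x₀ ρ ×ˢ univ`
(`ContDiffOn.fderiv_of_isOpen`, `ContDiffOn.clm_comp`), at `h₀ = (x₀, id)`. Put
`α x t = (β ((x, id), t)).1`, `A x t = (β ((x, id), t)).2` for `x ∈ closedBall x₀ r`
(`(x, id) ∈ closedBall h₀ r`); `HasDerivAt.fst`, `HasDerivAt.snd` (components).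
-/

open scoped ContDiff Topology

namespace Pool.Agent.TWR

private theorem Vra_ode {H : Type*} [NormedAddCommGroup H] [NormedSpace ℝ H] [CompleteSpace H]
    {G : H → H} {P : Set H} (hP : IsOpen P) (hG : ContDiffOn ℝ 1 G P) {h₀ : H} (hh₀ : h₀ ∈ P) :
    ∃ r > 0, ∃ ε > 0, ∃ β : H × ℝ → H,
      ContinuousOn β (Metric.closedBall h₀ r ×ˢ Set.Ioo (-ε) ε) ∧
      ∀ z ∈ Metric.closedBall h₀ r, β (z, 0) = z ∧
        ∀ τ ∈ Set.Ioo (-ε) ε, β (z, τ) ∈ P ∧
          HasDerivAt (fun t => β (z, t)) (G (β (z, τ))) τ := by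
  have hG' : ContDiffAt ℝ 1 G h₀ := hG.contDiffAt (hP.mem_nhds hh₀)
  obtain ⟨ε, hε, a, r, L, K, hr, hpl⟩ := IsPicardLindelof.of_contDiffAt_one hG'
  obtain ⟨α, hα1, hα2⟩ :=
    (hpl 0).exists_forall_mem_closedBall_eq_hasDerivWithinAt_continuousOn
  have hr0 : (0 : ℝ) < r := hr
  have h0 : α (h₀, 0) = h₀ := (hα1 h₀ (Metric.mem_closedBall_self hr0.le)).1
  have hc : ContinuousAt α (h₀, 0) := by
    refine hα2.continuousAt ?_
    exact prod_mem_nhds (Metric.closedBall_mem_nhds h₀ hr0)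
      (Icc_mem_nhds (by linarith) (by linarith))
  have hpre : α ⁻¹' P ∈ 𝓝 ((h₀, (0 : ℝ)) : H × ℝ) :=
    hc (hP.mem_nhds (by rw [h0]; exact hh₀))
  rw [Metric.mem_nhds_iff] at hpre
  obtain ⟨δ, hδ, hball⟩ := hpre
  refine ⟨min r (δ / 2), lt_min hr0 (by linarith), min ε (δ / 2),
    lt_min hε (by linarith), α, hα2.mono ?_, fun z hz => ⟨?_, ?_⟩⟩
  · rintro ⟨z, t⟩ ⟨hz, ht⟩
    have h2 : min ε (δ / 2) ≤ ε := min_le_left _ _
    refine ⟨Metric.closedBall_subset_closedBall (min_le_left _ _) hz, ?_, ?_⟩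
    · have h1 : -(min ε (δ / 2)) < t := ht.1
      show 0 - ε ≤ t
      linarith
    · have h1 : t < min ε (δ / 2) := ht.2
      show t ≤ 0 + ε
      linarith
  · exact (hα1 z (Metric.closedBall_subset_closedBall (min_le_left _ _) hz)).1
  · intro τ hτ
    have hzr : z ∈ Metric.closedBall h₀ (r : ℝ) :=
      Metric.closedBall_subset_closedBall (min_le_left _ _) hz
    have hzd : dist z h₀ < δ := by
      have h1 : dist z h₀ ≤ min (r : ℝ) (δ / 2) := hz
      have h2 : min (r : ℝ) (δ / 2) ≤ δ / 2 := min_le_right _ _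
      linarith
    have ht1 : -ε < τ := by
      have h1 := hτ.1
      have h2 : min ε (δ / 2) ≤ ε := min_le_left _ _
      linarith
    have ht2 : τ < ε := lt_of_lt_of_le hτ.2 (min_le_left _ _)
    have ht3 : |τ| < δ := by
      have h2 : min ε (δ / 2) ≤ δ / 2 := min_le_right _ _
      rw [abs_lt]
      constructor
      · have h1 := hτ.1
        linarith
      · have h1 := hτ.2
        linarith
    refine ⟨?_, ?_⟩
    · apply hball
      rw [Metric.mem_ball, Prod.dist_eq]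
      refine max_lt hzd ?_
      rw [Real.dist_eq, sub_zero]
      exact ht3
    · have hin : τ ∈ Set.Icc (0 - ε) (0 + ε) := ⟨by linarith, by linarith⟩
      exact ((hα1 z hzr).2 τ hin).hasDerivAt (Icc_mem_nhds (by linarith) (by linarith))

theorem var_exists {V : Type*} [NormedAddCommGroup V] [NormedSpace ℝ V] [FiniteDimensional ℝ V]
    {O : Set V} (hO : IsOpen O) {f : V → V} (hf : ContDiffOn ℝ ∞ f O) {x₀ : V} (hx₀ : x₀ ∈ O) :
    ∃ r > 0, ∃ ε > 0, ∃ K : Set V, IsCompact K ∧ Convex ℝ K ∧ K ⊆ O ∧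
      ∃ (α : V → ℝ → V) (A : V → ℝ → V →L[ℝ] V),
        (∀ x ∈ Metric.closedBall x₀ r, α x 0 = x ∧ A x 0 = ContinuousLinearMap.id ℝ V ∧
          ∀ t ∈ Set.Ioo (-ε) ε, α x t ∈ K ∧ HasDerivAt (α x) (f (α x t)) t ∧
            HasDerivAt (A x) ((fderiv ℝ f (α x t)).comp (A x t)) t) ∧
        ContinuousOn (fun p : V × ℝ => α p.1 p.2) (Metric.closedBall x₀ r ×ˢ Set.Ioo (-ε) ε) ∧
        ContinuousOn (fun p : V × ℝ => A p.1 p.2) (Metric.closedBall x₀ r ×ˢ Set.Ioo (-ε) ε) := by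
  have _ : CompleteSpace V := FiniteDimensional.complete ℝ V
  have _ : ProperSpace V := FiniteDimensional.proper ℝ V
  obtain ⟨ρ, hρ, hKO⟩ := Metric.nhds_basis_closedBall.mem_iff.1 (hO.mem_nhds hx₀)
  obtain ⟨G, hG⟩ : ∃ G : V × (V →L[ℝ] V) → V × (V →L[ℝ] V),
      G = fun p => (f p.1, (fderiv ℝ f p.1).comp p.2) := ⟨_, rfl⟩
  obtain ⟨P, hPd⟩ : ∃ P : Set (V × (V →L[ℝ] V)), P = Metric.ball x₀ ρ ×ˢ Set.univ := ⟨_, rfl⟩
  have hP : IsOpen P := by
    rw [hPd]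
    exact Metric.isOpen_ball.prod isOpen_univ
  have hsub : Set.MapsTo (fun p : V × (V →L[ℝ] V) => p.1) P O := by
    intro p hp
    rw [hPd] at hp
    exact hKO (Metric.ball_subset_closedBall hp.1)
  have hf1 : ContDiffOn ℝ 1 f O := hf.of_le (by simp)
  have hf3 : ContDiffOn ℝ ∞ (fderiv ℝ f) O := hf.fderiv_of_isOpen hO (by simp)
  have hf2 : ContDiffOn ℝ 1 (fderiv ℝ f) O := hf3.of_le (by simp)
  have hGc : ContDiffOn ℝ 1 G P := by
    rw [hG]
    refine ContDiffOn.prodMk (hf1.comp contDiffOn_fst hsub) ?_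
    exact (hf2.comp contDiffOn_fst hsub).clm_comp contDiffOn_snd
  have hh₀ : (x₀, ContinuousLinearMap.id ℝ V) ∈ P := by
    rw [hPd]
    exact ⟨Metric.mem_ball_self hρ, Set.mem_univ _⟩
  obtain ⟨r, hr, ε, hε, β, hβc, hβ⟩ := Vra_ode hP hGc hh₀
  have hm : ∀ x ∈ Metric.closedBall x₀ r,
      (x, ContinuousLinearMap.id ℝ V) ∈ Metric.closedBall (x₀, ContinuousLinearMap.id ℝ V) r := by
    intro x hx
    rw [Metric.mem_closedBall, Prod.dist_eq, dist_self]
    exact max_le hx hr.le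
  have hcont : ContinuousOn (fun p : V × ℝ => β ((p.1, ContinuousLinearMap.id ℝ V), p.2))
      (Metric.closedBall x₀ r ×ˢ Set.Ioo (-ε) ε) := by
    refine hβc.comp (f := fun p : V × ℝ => ((p.1, ContinuousLinearMap.id ℝ V), p.2)) ?_ ?_
    · fun_prop
    · rintro ⟨x, t⟩ ⟨hx, ht⟩
      exact ⟨hm x hx, ht⟩
  refine ⟨r, hr, ε, hε, Metric.closedBall x₀ ρ, isCompact_closedBall x₀ ρ,
    convex_closedBall x₀ ρ, hKO, fun x t => (β ((x, ContinuousLinearMap.id ℝ V), t)).1,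
    fun x t => (β ((x, ContinuousLinearMap.id ℝ V), t)).2, ?_, hcont.fst, hcont.snd⟩
  intro x hx
  obtain ⟨h1, h2⟩ := hβ _ (hm x hx)
  refine ⟨congrArg Prod.fst h1, congrArg Prod.snd h1, fun t ht => ?_⟩
  obtain ⟨h3, h4⟩ := h2 t ht
  rw [hG] at h4
  rw [hPd] at h3
  exact ⟨Metric.ball_subset_closedBall h3.1, h4.fst, h4.snd⟩

end Pool.Agent.TWR
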