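import Mathlib

/-!
TWR module Vrb (size 6): the flow is differentiable in the initial point, with derivative the solution of
the variational equation; only Mathlib.
PROOF. Constants on the compact convex set `K ⊆ O`: `‖fderiv ℝ f x‖ ≤ L` on `K` (continuity, compactness), so
`f` is `L`-Lipschitz on `K` (`Convex.norm_image_sub_le_of_norm_fderiv_le` or the `HasFDerivWithin` version);
`fderiv ℝ f` is `C¹` on `O`, so it is `M`-Lipschitz on `K` in the same way; hence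
(`Convex.norm_image_sub_le_of_norm_hasFDerivWithin_le'` on the segment, or on `K` with the map
`x' ↦ f x' - fderiv ℝ f x x'`) `‖f y - f x - fderiv ℝ f x (y - x)‖ ≤ M ‖y - x‖²` for `x, y ∈ K`.
Fix `x ∈ ball x₀ r`, `y ∈ closedBall x₀ r`, `0 ≤ t < ε`. (1) `u τ = α y τ - α x τ`: `‖u' τ‖ ≤ L ‖u τ‖`, `u 0 = y - x`; Gronwall
(`norm_le_gronwallBound_of_norm_deriv_right_le` on `[0, t]`) gives `‖u τ‖ ≤ ‖y - x‖ exp (L τ)`.
(2) `v τ = u τ - A x τ (y - x)`: `v' τ = f (α y τ) - f (α x τ) - fderiv ℝ f (α x τ) (A x τ (y - x))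
= fderiv ℝ f (α x τ) (v τ) + R`, `‖R‖ ≤ M ‖u τ‖² ≤ M exp (2 L ε) ‖y - x‖²`, `v 0 = 0` (`A x 0 = id`); Gronwall:
`‖v t‖ ≤ C ‖y - x‖²` with `C` independent of `y` (`gronwallBound 0 L e t`, linear in `e`:
`gronwallBound_of_K_ne_0`; take `L > 0`). So `α · t` has derivative `A x t` at `x` (`HasFDerivAt` from the
quadratic bound near `x`: `hasFDerivAt_iff_isLittleO` / `Asymptotics.IsBigO.trans_isLittleO`).
(3) For `-ε < t < 0` apply (1), (2) to `α x (-τ)`, `A x (-τ)`, which solve the equations of `-f`.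
-/

open scoped ContDiff Topology

namespace Pool.Agent.TWR

private theorem Vrb_const {V : Type*} [NormedAddCommGroup V] [NormedSpace ℝ V]
    {O : Set V} (hO : IsOpen O) {f : V → V} (hf : ContDiffOn ℝ ∞ f O)
    {K : Set V} (hK : IsCompact K) (hKc : Convex ℝ K) (hKO : K ⊆ O) :
    ∃ L M : ℝ, 0 < L ∧ 0 ≤ M ∧ (∀ p ∈ K, ‖fderiv ℝ f p‖ ≤ L) ∧
      (∀ p ∈ K, ∀ q ∈ K, ‖f q - f p‖ ≤ L * ‖q - p‖) ∧
      (∀ p ∈ K, ∀ q ∈ K, ‖f q - f p - fderiv ℝ f p (q - p)‖ ≤ M * ‖q - p‖ ^ 2) := by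
  have hdf : ∀ p ∈ K, DifferentiableAt ℝ f p := fun p hp =>
    (hf.contDiffAt (hO.mem_nhds (hKO hp))).differentiableAt (by simp)
  have hg : ContDiffOn ℝ ∞ (fderiv ℝ f) O := hf.fderiv_of_isOpen hO (by simp)
  have hdg : ∀ p ∈ K, DifferentiableAt ℝ (fderiv ℝ f) p := fun p hp =>
    (hg.contDiffAt (hO.mem_nhds (hKO hp))).differentiableAt (by simp)
  obtain ⟨L, hL⟩ := hK.exists_bound_of_continuousOn (hg.continuousOn.mono hKO)
  obtain ⟨M, hM⟩ := hK.exists_bound_of_continuousOn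
    ((hg.continuousOn_fderiv_of_isOpen hO (by simp)).mono hKO)
  have hL' : ∀ p ∈ K, ‖fderiv ℝ f p‖ ≤ |L| + 1 := fun p hp =>
    (hL p hp).trans ((le_abs_self L).trans (by linarith))
  have hM' : ∀ p ∈ K, ‖fderiv ℝ (fderiv ℝ f) p‖ ≤ |M| := fun p hp =>
    (hM p hp).trans (le_abs_self M)
  refine ⟨|L| + 1, |M|, by positivity, abs_nonneg _, hL', ?_, ?_⟩
  · intro p hp q hq
    exact hKc.norm_image_sub_le_of_norm_fderiv_le hdf hL' hp hq
  · intro p hp q hq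
    have hseg : segment ℝ p q ⊆ K := hKc.segment_subset hp hq
    have h1 := (convex_segment p q).norm_image_sub_le_of_norm_fderiv_le' (𝕜 := ℝ) (f := f)
      (C := |M| * ‖q - p‖) (φ := fderiv ℝ f p) (fun z hz => hdf z (hseg hz)) (fun z hz => ?_)
      (left_mem_segment ℝ p q) (right_mem_segment ℝ p q)
    · refine h1.trans (le_of_eq ?_)
      ring
    · refine (hKc.norm_image_sub_le_of_norm_fderiv_le hdg hM' hp (hseg hz)).trans ?_
      exact mul_le_mul_of_nonneg_left (norm_sub_le_of_mem_segment hz) (abs_nonneg _)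

private theorem Vrb_quad {V : Type*} [NormedAddCommGroup V] [NormedSpace ℝ V]
    {f : V → V} {D : V → V →L[ℝ] V} {K : Set V} {L M : ℝ} (hL : 0 < L) (hM : 0 ≤ M)
    (h1 : ∀ p ∈ K, ‖D p‖ ≤ L) (h2 : ∀ p ∈ K, ∀ q ∈ K, ‖f q - f p‖ ≤ L * ‖q - p‖)
    (h3 : ∀ p ∈ K, ∀ q ∈ K, ‖f q - f p - D p (q - p)‖ ≤ M * ‖q - p‖ ^ 2)
    {x y : V} {t : ℝ} (ht : 0 ≤ t) {a b : ℝ → V} {B : ℝ → V →L[ℝ] V} (ha0 : a 0 = x)
    (hb0 : b 0 = y) (hB0 : B 0 = ContinuousLinearMap.id ℝ V)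
    (ha : ∀ τ ∈ Set.Icc 0 t, a τ ∈ K ∧ HasDerivAt a (f (a τ)) τ)
    (hb : ∀ τ ∈ Set.Icc 0 t, b τ ∈ K ∧ HasDerivAt b (f (b τ)) τ)
    (hB : ∀ τ ∈ Set.Icc 0 t, HasDerivAt B ((D (a τ)).comp (B τ)) τ) :
    ‖b t - a t - B t (y - x)‖
      ≤ M * Real.exp (L * t) ^ 2 / L * (Real.exp (L * t) - 1) * ‖y - x‖ ^ 2 := by
  have hu : ∀ τ ∈ Set.Icc 0 t, ‖b τ - a τ‖ ≤ ‖y - x‖ * Real.exp (L * τ) := by
    have hg := norm_le_gronwallBound_of_norm_deriv_right_le (f := fun τ => b τ - a τ)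
      (f' := fun τ => f (b τ) - f (a τ)) (δ := ‖y - x‖) (K := L) (ε := 0) (a := 0) (b := t)
      (fun τ hτ => (((hb τ hτ).2.sub (ha τ hτ).2).continuousAt).continuousWithinAt)
      (fun τ hτ => ((hb τ ⟨hτ.1, hτ.2.le⟩).2.sub (ha τ ⟨hτ.1, hτ.2.le⟩).2).hasDerivWithinAt)
      (by simp only [ha0, hb0]; exact le_refl _)
      (fun τ hτ => by
        rw [add_zero]
        exact h2 _ (ha τ ⟨hτ.1, hτ.2.le⟩).1 _ (hb τ ⟨hτ.1, hτ.2.le⟩).1)
    intro τ hτ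
    have := hg τ hτ
    rwa [gronwallBound_ε0, sub_zero] at this
  have hu' : ∀ τ ∈ Set.Icc 0 t, ‖b τ - a τ‖ ≤ ‖y - x‖ * Real.exp (L * t) := by
    intro τ hτ
    refine (hu τ hτ).trans (mul_le_mul_of_nonneg_left ?_ (norm_nonneg _))
    exact Real.exp_le_exp.2 (mul_le_mul_of_nonneg_left hτ.2 hL.le)
  have hBd : ∀ τ ∈ Set.Icc 0 t, HasDerivAt (fun τ => B τ (y - x)) (D (a τ) (B τ (y - x))) τ := by
    intro τ hτ
    have h4 := (hB τ hτ).clm_apply (hasDerivAt_const τ (y - x))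
    simpa using h4
  have hv := norm_le_gronwallBound_of_norm_deriv_right_le
    (f := fun τ => b τ - a τ - B τ (y - x))
    (f' := fun τ => f (b τ) - f (a τ) - D (a τ) (B τ (y - x))) (δ := 0) (K := L)
    (ε := M * Real.exp (L * t) ^ 2 * ‖y - x‖ ^ 2) (a := 0) (b := t)
    (fun τ hτ => ((((hb τ hτ).2.sub (ha τ hτ).2).sub (hBd τ hτ)).continuousAt).continuousWithinAt)
    (fun τ hτ => (((hb τ ⟨hτ.1, hτ.2.le⟩).2.sub (ha τ ⟨hτ.1, hτ.2.le⟩).2).sub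
      (hBd τ ⟨hτ.1, hτ.2.le⟩)).hasDerivWithinAt)
    (by simp [ha0, hb0, hB0])
    (fun τ hτ => by
      have hτ' : τ ∈ Set.Icc 0 t := ⟨hτ.1, hτ.2.le⟩
      have e1 : f (b τ) - f (a τ) - D (a τ) (B τ (y - x))
          = D (a τ) (b τ - a τ - B τ (y - x)) + (f (b τ) - f (a τ) - D (a τ) (b τ - a τ)) := by
        rw [map_sub (D (a τ)) (b τ - a τ) (B τ (y - x))]
        abel
      rw [e1]
      refine (norm_add_le _ _).trans (add_le_add ?_ ?_)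
      · refine ((D (a τ)).le_opNorm _).trans ?_
        exact mul_le_mul_of_nonneg_right (h1 _ (ha τ hτ').1) (norm_nonneg _)
      · refine (h3 _ (ha τ hτ').1 _ (hb τ hτ').1).trans ?_
        have e2 : ‖b τ - a τ‖ ^ 2 ≤ (‖y - x‖ * Real.exp (L * t)) ^ 2 :=
          pow_le_pow_left₀ (norm_nonneg _) (hu' τ hτ') 2
        calc M * ‖b τ - a τ‖ ^ 2 ≤ M * (‖y - x‖ * Real.exp (L * t)) ^ 2 :=
              mul_le_mul_of_nonneg_left e2 hM
          _ = _ := by ring)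
    t ⟨ht, le_refl _⟩
  rw [gronwallBound_of_K_ne_0 hL.ne', sub_zero] at hv
  refine hv.trans (le_of_eq ?_)
  ring

private theorem Vrb_pos {V : Type*} [NormedAddCommGroup V] [NormedSpace ℝ V]
    {O : Set V} (hO : IsOpen O) {f : V → V} (hf : ContDiffOn ℝ ∞ f O) {x₀ : V} {r ε : ℝ}
    {K : Set V} (hK : IsCompact K) (hKc : Convex ℝ K) (hKO : K ⊆ O)
    {α : V → ℝ → V} {A : V → ℝ → V →L[ℝ] V}
    (h : ∀ x ∈ Metric.closedBall x₀ r, α x 0 = x ∧ A x 0 = ContinuousLinearMap.id ℝ V ∧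
      ∀ t ∈ Set.Ioo (-ε) ε, α x t ∈ K ∧ HasDerivAt (α x) (f (α x t)) t ∧
        HasDerivAt (A x) ((fderiv ℝ f (α x t)).comp (A x t)) t)
    {x : V} (hx : x ∈ Metric.ball x₀ r) {t : ℝ} (ht : t ∈ Set.Ioo (-ε) ε) (h0 : 0 ≤ t) :
    HasFDerivAt (fun y => α y t) (A x t) x := by
  obtain ⟨L, M, hL, hM, h1, h2, h3⟩ := Vrb_const hO hf hK hKc hKO
  have hxc : x ∈ Metric.closedBall x₀ r := Metric.ball_subset_closedBall hx
  have hI : ∀ τ ∈ Set.Icc 0 t, τ ∈ Set.Ioo (-ε) ε := fun τ hτ =>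
    ⟨by linarith [hτ.1, hτ.2, ht.1, ht.2], lt_of_le_of_lt hτ.2 ht.2⟩
  have hq : ∀ y ∈ Metric.closedBall x₀ r, ‖α y t - α x t - A x t (y - x)‖
      ≤ M * Real.exp (L * t) ^ 2 / L * (Real.exp (L * t) - 1) * ‖‖y - x‖ ^ 2‖ := by
    intro y hy
    rw [norm_pow, norm_norm]
    obtain ⟨hx0, hA0, hxt⟩ := h x hxc
    obtain ⟨hy0, -, hyt⟩ := h y hy
    exact Vrb_quad hL hM h1 h2 h3 h0 hx0 hy0 hA0
      (fun τ hτ => ⟨(hxt τ (hI τ hτ)).1, (hxt τ (hI τ hτ)).2.1⟩)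
      (fun τ hτ => ⟨(hyt τ (hI τ hτ)).1, (hyt τ (hI τ hτ)).2.1⟩)
      (fun τ hτ => (hxt τ (hI τ hτ)).2.2)
  refine HasFDerivAt.of_isLittleO ?_
  refine Asymptotics.IsBigO.trans_isLittleO ?_ (Asymptotics.isLittleO_pow_sub_sub x one_lt_two)
  refine Asymptotics.IsBigO.of_bound
    (M * Real.exp (L * t) ^ 2 / L * (Real.exp (L * t) - 1)) ?_
  filter_upwards [Metric.isOpen_ball.mem_nhds hx] with y hy
  exact hq y (Metric.ball_subset_closedBall hy)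

theorem var_deriv {V : Type*} [NormedAddCommGroup V] [NormedSpace ℝ V] [FiniteDimensional ℝ V]
    {O : Set V} (hO : IsOpen O) {f : V → V} (hf : ContDiffOn ℝ ∞ f O) {x₀ : V} {r ε : ℝ}
    {K : Set V} (hK : IsCompact K) (hKc : Convex ℝ K) (hKO : K ⊆ O)
    {α : V → ℝ → V} {A : V → ℝ → V →L[ℝ] V}
    (h : ∀ x ∈ Metric.closedBall x₀ r, α x 0 = x ∧ A x 0 = ContinuousLinearMap.id ℝ V ∧
      ∀ t ∈ Set.Ioo (-ε) ε, α x t ∈ K ∧ HasDerivAt (α x) (f (α x t)) t ∧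
        HasDerivAt (A x) ((fderiv ℝ f (α x t)).comp (A x t)) t)
    {x : V} (hx : x ∈ Metric.ball x₀ r) {t : ℝ} (ht : t ∈ Set.Ioo (-ε) ε) :
    HasFDerivAt (fun y => α y t) (A x t) x := by
  rcases le_total 0 t with h0 | h0
  · exact Vrb_pos hO hf hK hKc hKO h hx ht h0
  · have hneg : ∀ τ ∈ Set.Ioo (-ε) ε, -τ ∈ Set.Ioo (-ε) ε := fun τ hτ =>
      ⟨by linarith [hτ.2], by linarith [hτ.1]⟩
    have key := Vrb_pos (O := O) (f := fun z => -f z) (x₀ := x₀) (r := r) (ε := ε) (K := K)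
      (α := fun z τ => α z (-τ)) (A := fun z τ => A z (-τ)) hO hf.neg hK hKc hKO
      (fun z hz => by
        obtain ⟨hz0, hA0, hzt⟩ := h z hz
        refine ⟨by simp only [neg_zero]; exact hz0, by simp only [neg_zero]; exact hA0, ?_⟩
        intro τ hτ
        obtain ⟨g1, g2, g3⟩ := hzt (-τ) (hneg τ hτ)
        refine ⟨g1, ?_, ?_⟩
        · have h4 := HasDerivAt.scomp τ g2 (hasDerivAt_neg τ)
          rw [neg_one_smul] at h4
          exact h4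
        · have h4 := HasDerivAt.scomp τ g3 (hasDerivAt_neg τ)
          rw [neg_one_smul] at h4
          have h5 : fderiv ℝ (fun z => -f z) (α z (-τ)) = -fderiv ℝ f (α z (-τ)) := fderiv_fun_neg
          rw [h5, ContinuousLinearMap.neg_comp]
          exact h4)
      hx (hneg t ht) (by linarith)
    simpa only [neg_neg] using key

end Pool.Agent.TWR
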