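import Pool.Agent.TWR.Flw
import Pool.Agent.TWR.Vra
import Pool.Agent.TWR.Vrb
import Pool.Agent.TWR.Pbk
import Pool.Agent.TWR.Gch

/-!
TWR module Lfl (size 5): the flow for small times is `Good`, with a uniform time near every point.
PROOF. `i = ix A x₀`, `z₀ = A.c i x₀ ∈ O = Ou A s i` (open), `f = WW B m s l i`, smooth on `O` (`hamC_smooth`, `SmC_pf`).
`var_exists` gives `r, ε, K, α, M` (call `M` the family of linear maps), `var_deriv` the derivative of `α · t` on
`ball z₀ r`. Put `N = (A.c i).source ∩ A.c i ⁻¹' (ball z₀ r)`, a neighbourhood of `x₀`; it is open, and `N ⊆ Off A s`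
(`α z 0 = z ∈ K ⊆ O` for `z ∈ ball z₀ r`). Fix `|t| < ε`.
(1) For `y ∈ N`: `Fl B m s l t y = (A.c i).symm (α (A.c i y) t)`: `Fl_unique` (module Flw) for
`γ u = (A.c i).symm (α (A.c i y) u)`, which satisfies `IC A (WW ..) γ u` for `|u| < ε` exactly as in CIS/Loc.lean
(continuity, `right_inv`, `IC_of_chart`, `hamC_chart`).
(2) Let `x ∈ N`, `z = A.c i x`. By (1) for `y` near `x`, `Fl t` is continuous at `x` (`α · t` is continuous at `z`:
`HasFDerivAt.continuousAt`), and near `z` the function `y ↦ A.c i (Fl t ((A.c i).symm y))` equals `α · t`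
(`right_inv`: `(A.c i).symm y ∈ N` for `y ∈ ball z₀ r` near `z`, `y ∈ target`; and `α y t ∈ K ⊆ O ⊆ target`). It is `C¹` at
`z`: `contDiffAt_one_iff` (Mathlib: derivative on a neighbourhood, continuous) with `var_deriv` and the
continuity of `M` from `var_exists`; its derivative at `z` is `M z t`.
(3) `pull_back` (module Pbk) for the curve `α z`, `M z` gives the two identities at `z`, with the factor
`t * l * m`, i.e. `Good B (t * l * m) (Fl B m s l t) x` by `good_of_chart` (module Gch) in the charts `i`, `i`.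
-/

open scoped ContDiff ComplexConjugate Topology
open Complex

namespace Pool.Agent.TWR

open Pool.Agent.DTW Pool.Agent.CIS

variable {n : ℕ} {X : Type*} [TopologicalSpace X] [T2Space X] [CompactSpace X] {ι : Type*}
  {A : Atlas n X ι} {B : Bundle A} {m : ℤ} {s : ι → X → ℂ}

theorem flow_local (hs : B.IsSection m s) (hol : B.IsHol s) (l : ℂ)
    (hker : ∀ i, ∀ z ∈ Ou A s i, ∀ b : E n, th (B.wt i) z (WW B m s l i z) b = 0) {x₀ : X}
    (hx₀ : x₀ ∈ Off A s) :
    ∃ N ∈ 𝓝 x₀, ∃ ε > 0, ∀ x ∈ N, ∀ t : ℝ, t ∈ Set.Ioo (-ε) ε →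
      Good B ((t : ℂ) * l * m) (Fl B m s l t) x := by
  obtain ⟨i, hi_def⟩ : ∃ i, i = ix A x₀ := ⟨_, rfl⟩
  have hi : x₀ ∈ (A.c i).source := by
    rw [hi_def]
    exact mem_ix A x₀
  have hO : IsOpen (Ou A s i) := isOpen_Ou hs i
  have hz₀ : A.c i x₀ ∈ Ou A s i := by
    refine ⟨(A.c i).map_source hi, ?_⟩
    rw [(A.c i).left_inv hi]
    exact hx₀
  have hSm : SmC A s (pf B m s l) := SmC_pf hs l
  have hW : ContDiffOn ℝ ∞ (WW B m s l i) (Ou A s i) := hamC_smooth hs hSm i
  obtain ⟨r, hr, ε, hε, K, hKc, hKv, hKO, α, M, h, hαc, hMc⟩ := var_exists hO hW hz₀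
  have hder : ∀ z ∈ Metric.ball (A.c i x₀) r, ∀ t ∈ Set.Ioo (-ε) ε,
      HasFDerivAt (fun y => α y t) (M z t) z := fun z hz t ht =>
    var_deriv hO hW hKc hKv hKO h hz ht
  have h0ε : (0 : ℝ) ∈ Set.Ioo (-ε) ε := ⟨by linarith, hε⟩
  obtain ⟨N, hN⟩ : ∃ N : Set X, N = (A.c i).source ∩ A.c i ⁻¹' (Metric.ball (A.c i x₀) r) :=
    ⟨_, rfl⟩
  have hNo : IsOpen N := by
    rw [hN]
    exact (A.c i).isOpen_inter_preimage Metric.isOpen_ball
  have hNs : ∀ y ∈ N, y ∈ (A.c i).source := by
    intro y hy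
    rw [hN] at hy
    exact hy.1
  have hNb : ∀ y ∈ N, A.c i y ∈ Metric.ball (A.c i x₀) r := by
    intro y hy
    rw [hN] at hy
    exact hy.2
  have hα0 : ∀ z ∈ Metric.ball (A.c i x₀) r, α z 0 = z := fun z hz =>
    (h z (Metric.ball_subset_closedBall hz)).1
  have hαO : ∀ z ∈ Metric.ball (A.c i x₀) r, ∀ t ∈ Set.Ioo (-ε) ε, α z t ∈ Ou A s i :=
    fun z hz t ht => hKO ((h z (Metric.ball_subset_closedBall hz)).2.2 t ht).1
  have hNoff : ∀ y ∈ N, y ∈ Off A s := by
    intro y hy
    have h1 := hαO _ (hNb y hy) 0 h0ε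
    rw [hα0 _ (hNb y hy)] at h1
    have h2 := h1.2
    rw [(A.c i).left_inv (hNs y hy)] at h2
    exact h2
  -- (1)
  have hFl : ∀ y ∈ N, ∀ t ∈ Set.Ioo (-ε) ε,
      Fl B m s l t y = (A.c i).symm (α (A.c i y) t) := by
    intro y hy t ht
    have hzb := hNb y hy
    refine Fl_unique hs hol l (hNoff y hy) (γ := fun u => (A.c i).symm (α (A.c i y) u)) ?_
      (ε := ε) ?_ ht
    · show (A.c i).symm (α (A.c i y) 0) = y
      rw [hα0 _ hzb]
      exact (A.c i).left_inv (hNs y hy)
    · intro τ hτ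
      have hmem := hαO _ hzb τ hτ
      have hd := ((h _ (Metric.ball_subset_closedBall hzb)).2.2 τ hτ).2.1
      have htgt : α (A.c i y) τ ∈ (A.c i).target := hmem.1
      have hoff : (A.c i).symm (α (A.c i y) τ) ∈ Off A s := hmem.2
      have hsrc : (A.c i).symm (α (A.c i y) τ) ∈ (A.c i).source := (A.c i).map_target htgt
      have hcont : ContinuousAt (fun u => (A.c i).symm (α (A.c i y) u)) τ :=
        ((A.c i).continuousAt_symm htgt).comp (f := α (A.c i y)) hd.continuousAt
      have hrinv : A.c i ((A.c i).symm (α (A.c i y) τ)) = α (A.c i y) τ :=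
        (A.c i).right_inv htgt
      refine ⟨?_, hoff⟩
      refine IC_of_chart (i := i) hcont hsrc ?_ ?_
      · simp only [hrinv]
        refine hd.congr_of_eventuallyEq ?_
        filter_upwards [Ioo_mem_nhds hτ.1 hτ.2] with u hu
        exact (A.c i).right_inv (hαO _ hzb u hu).1
      · intro j hj
        have hU : A.c i ((A.c i).symm (α (A.c i y) τ)) ∈ Uo A i j := mem_Uo hsrc hj
        have h1 : (A.c i).symm (A.c i ((A.c i).symm (α (A.c i y) τ))) ∈ Off A s := by
          rw [(A.c i).left_inv hsrc]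
          exact hoff
        have h2 := hamC_chart hs hSm hU h1
        rw [ph_chart hsrc] at h2
        exact h2
  refine ⟨N, hNo.mem_nhds ?_, ε, hε, ?_⟩
  · rw [hN]
    exact ⟨hi, Metric.mem_ball_self hr⟩
  intro x hx t ht
  have hxs := hNs x hx
  have hzb := hNb x hx
  have hzt : A.c i x ∈ (A.c i).target := (A.c i).map_source hxs
  have hmem := hαO _ hzb t ht
  have hd := hder _ hzb t ht
  have hFx : Fl B m s l t x = (A.c i).symm (α (A.c i x) t) := hFl x hx t ht
  have hsrc : Fl B m s l t x ∈ (A.c i).source := by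
    rw [hFx]
    exact (A.c i).map_target hmem.1
  have hcx : A.c i (Fl B m s l t x) = α (A.c i x) t := by
    rw [hFx]
    exact (A.c i).right_inv hmem.1
  have hcont : ContinuousAt (Fl B m s l t) x := by
    have h1 : ContinuousAt (fun y => (A.c i).symm (α (A.c i y) t)) x := by
      have h2 : ContinuousAt (fun y => α (A.c i y) t) x :=
        ContinuousAt.comp (f := A.c i) (g := fun y => α y t) hd.continuousAt
          ((A.c i).continuousAt hxs)
      exact ContinuousAt.comp (f := fun y => α (A.c i y) t) ((A.c i).continuousAt_symm hmem.1) h2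
    refine h1.congr ?_
    filter_upwards [hNo.mem_nhds hx] with y hy
    exact (hFl y hy t ht).symm
  have hev : (fun y => A.c i (Fl B m s l t ((A.c i).symm y))) =ᶠ[𝓝 (A.c i x)]
      fun y => α y t := by
    filter_upwards [(A.c i).open_target.mem_nhds hzt, Metric.isOpen_ball.mem_nhds hzb] with y h1 h2
    have h3 : (A.c i).symm y ∈ N := by
      rw [hN]
      refine ⟨(A.c i).map_target h1, ?_⟩
      rw [Set.mem_preimage, (A.c i).right_inv h1]
      exact h2
    rw [hFl _ h3 t ht, (A.c i).right_inv h1]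
    exact (A.c i).right_inv (hαO _ h2 t ht).1
  have hfd : fderiv ℝ (fun y => A.c i (Fl B m s l t ((A.c i).symm y))) (A.c i x)
      = M (A.c i x) t := by
    rw [hev.fderiv_eq]
    exact hd.fderiv
  have hpb := fun a b : E n => pull_back hs hol l (i := i) (hker i) (α := α (A.c i x))
    (M := M (A.c i x)) (h _ (Metric.ball_subset_closedBall hzb)).2.1
    (fun τ hτ => ⟨hαO _ hzb τ hτ, ((h _ (Metric.ball_subset_closedBall hzb)).2.2 τ hτ).2.1,
      ((h _ (Metric.ball_subset_closedBall hzb)).2.2 τ hτ).2.2⟩) ht a b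
  refine good_of_chart B hcont hxs hsrc ?_ ?_ ?_
  · refine ContDiffAt.congr_of_eventuallyEq ?_ hev
    rw [contDiffAt_one_iff]
    refine ⟨fun y => M y t, Metric.ball (A.c i x₀) r, Metric.isOpen_ball.mem_nhds hzb, ?_,
      fun y hy => hder y hy t ht⟩
    refine hMc.comp (f := fun y : E n => (y, t)) (by fun_prop) ?_
    intro y hy
    exact ⟨Metric.ball_subset_closedBall hy, ht⟩
  · intro a b
    rw [hfd, (hpb a b).1, hα0 _ hzb]
  · intro a b
    rw [hfd, hcx, (hpb a b).2, hα0 _ hzb]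

end Pool.Agent.TWR
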