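import Pool.Agent.TWR.Hch

/-!
TWR module Loc2 (size 3): local integral curves of Hamiltonian fields of smooth functions, uniform time.
PROOF. Copy of CIS/Loc.lean (`local_curves`, delivered), with `hamC_chart`, `hamC_smooth` (module Hch)
instead of `ham_chart`, `ham_smooth`.
-/

open scoped ContDiff ComplexConjugate Topology
open Complex

namespace Pool.Agent.TWR

open Pool.Agent.DTW Pool.Agent.CIS

variable {n : ℕ} {X : Type*} [TopologicalSpace X] {ι : Type*} {A : Atlas n X ι} {B : Bundle A}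
  {m : ℤ} {s : ι → X → ℂ}

theorem local_curvesC (hs : B.IsSection m s) {f : X → ℂ} (hf : SmC A s f) {x₀ : X}
    (hx₀ : x₀ ∈ Off A s) :
    ∃ N ∈ 𝓝 x₀, ∃ ε > 0, ∀ x ∈ N, ∃ γ : ℝ → X, γ 0 = x ∧
      ∀ τ ∈ Set.Ioo (-ε) ε, IC A (hamX A f) γ τ ∧ γ τ ∈ Off A s := by
  set i := ix A x₀ with hi_def
  have hi : x₀ ∈ (A.c i).source := mem_ix A x₀
  have hO : IsOpen (Ou A s i) := isOpen_Ou hs i
  have hz₀ : A.c i x₀ ∈ Ou A s i := by
    refine ⟨(A.c i).map_source hi, ?_⟩
    rw [(A.c i).left_inv hi]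
    exact hx₀
  have hW : ContDiffOn ℝ 1 (hamX A f i) (Ou A s i) :=
    (hamC_smooth hs hf i).of_le (by exact_mod_cast le_top)
  obtain ⟨r, hr, ε, hε, H⟩ := ode_open hO hW hz₀
  refine ⟨(A.c i).source ∩ A.c i ⁻¹' (Metric.closedBall (A.c i x₀) r), ?_, ε, hε, ?_⟩
  · exact Filter.inter_mem ((A.c i).open_source.mem_nhds hi)
      (((A.c i).continuousAt hi) (Metric.closedBall_mem_nhds _ hr))
  · rintro x ⟨hxi, hxb⟩
    obtain ⟨α, hα0, hα⟩ := H (A.c i x) hxb
    refine ⟨fun u => (A.c i).symm (α u), ?_, ?_⟩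
    · simp only [hα0]
      exact (A.c i).left_inv hxi
    · intro τ hτ
      obtain ⟨hmem, hder⟩ := hα τ hτ
      have htgt : α τ ∈ (A.c i).target := hmem.1
      have hoff : (A.c i).symm (α τ) ∈ Off A s := hmem.2
      have hsrc : (A.c i).symm (α τ) ∈ (A.c i).source := (A.c i).map_target htgt
      have hcont : ContinuousAt (fun u => (A.c i).symm (α u)) τ :=
        ((A.c i).continuousAt_symm htgt).comp (f := α) hder.continuousAt
      have hrinv : A.c i ((A.c i).symm (α τ)) = α τ := (A.c i).right_inv htgt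
      refine ⟨?_, hoff⟩
      refine IC_of_chart (i := i) hcont hsrc ?_ ?_
      · simp only [hrinv]
        refine hder.congr_of_eventuallyEq ?_
        filter_upwards [Ioo_mem_nhds hτ.1 hτ.2] with u hu
        exact (A.c i).right_inv (hα u hu).1.1
      · intro j hj
        have hU : A.c i ((A.c i).symm (α τ)) ∈ Uo A i j := mem_Uo hsrc hj
        have h1 : (A.c i).symm (A.c i ((A.c i).symm (α τ))) ∈ Off A s := by
          rw [(A.c i).left_inv hsrc]
          exact hoff
        have h2 := hamC_chart hs hf hU h1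
        rw [ph_chart hsrc] at h2
        exact h2

end Pool.Agent.TWR
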