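import Pool.Agent.TWR.Thc

/-!
TWR module Thx (size 3): invariance of `σ` and `∂∂̄w` under changes of charts.
PROOF. Let `φ = ph A i j`, `z ∈ Uo A i j`. `real_fderiv`: `fderiv ℝ φ z = (fderiv ℂ φ z).restrictScalars ℝ` on vectors,
because `φ` is complex differentiable at `z` (`contDiffOn_ph`, `isOpen_Uo`; `HasFDerivAt.restrictScalars`).
`S_ph`: `A.symp`. `th_ph`: `levi_eq_sum` for `B.wt i` at `z` and for `B.wt j` at `φ z`, `chg_wt` (DTW/Glo.lean:
`LM (B.wt i) z k l = ∑ p q, TT φ z p k * conj (TT φ z q l) * LM (B.wt j) (φ z) p q`) and `TT_apply`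
(`fderiv ℂ φ z a p = ∑ k, TT φ z p k * a k`): `levi (B.wt i) z a b = levi (B.wt j) (φ z) (Dφ a) (Dφ b)`.
-/

open scoped ContDiff ComplexConjugate Topology
open Complex

namespace Pool.Agent.TWR

open Pool.Agent.DTW Pool.Agent.CIS

variable {n : ℕ} {X : Type*} [TopologicalSpace X] {ι : Type*} {A : Atlas n X ι}

private theorem Thx_levi (B : Bundle A) {i j : ι} {z : E n} (hz : z ∈ Uo A i j) (a b : E n) :
    levi (B.wt j) (ph A i j z) (fderiv ℂ (ph A i j) z a) (fderiv ℂ (ph A i j) z b)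
      = levi (B.wt i) z a b := by
  have hwi : ContDiffAt ℝ ∞ (B.wt i) z :=
    (B.smooth i).contDiffAt ((A.c i).open_target.mem_nhds hz.1)
  have hwj : ContDiffAt ℝ ∞ (B.wt j) (ph A i j z) :=
    (B.smooth j).contDiffAt ((A.c j).open_target.mem_nhds (ph_mem hz))
  rw [levi_eq_sum hwi, levi_eq_sum hwj]
  have h1 : ∀ p q : Ix n, fderiv ℂ (ph A i j) z a p * conj (fderiv ℂ (ph A i j) z b q)
      * LM (B.wt j) (ph A i j z) p q = ∑ k, ∑ l, a k * conj (b l)
        * (TT (ph A i j) z p k * conj (TT (ph A i j) z q l) * LM (B.wt j) (ph A i j z) p q) := by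
    intro p q
    rw [TT_apply, TT_apply, map_sum, Finset.sum_mul_sum, Finset.sum_mul]
    refine Finset.sum_congr rfl fun k _ => ?_
    rw [Finset.sum_mul]
    refine Finset.sum_congr rfl fun l _ => ?_
    rw [map_mul]
    ring
  simp only [h1, chg_wt B hz, Finset.mul_sum]
  rw [← sum4]

theorem real_fderiv {i j : ι} {z : E n} (hz : z ∈ Uo A i j) (a : E n) :
    fderiv ℝ (ph A i j) z a = fderiv ℂ (ph A i j) z a := by
  have hd : DifferentiableAt ℂ (ph A i j) z :=
    ((contDiffOn_ph A i j).contDiffAt ((isOpen_Uo A i j).mem_nhds hz)).differentiableAt (by simp)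
  have h : HasFDerivAt (ph A i j) ((fderiv ℂ (ph A i j) z).restrictScalars ℝ) z :=
    hd.hasFDerivAt.restrictScalars ℝ
  rw [h.fderiv]
  rfl

theorem S_ph {i j : ι} {z : E n} (hz : z ∈ Uo A i j) (a b : E n) :
    S (fderiv ℝ (ph A i j) z a) (fderiv ℝ (ph A i j) z b) = S a b := by
  rw [real_fderiv hz, real_fderiv hz]
  exact A.symp i j z hz.1 hz.2 a b

theorem th_ph (B : Bundle A) {i j : ι} {z : E n} (hz : z ∈ Uo A i j) (a b : E n) :
    th (B.wt j) (ph A i j z) (fderiv ℝ (ph A i j) z a) (fderiv ℝ (ph A i j) z b)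
      = th (B.wt i) z a b := by
  unfold th
  rw [real_fderiv hz, real_fderiv hz, Thx_levi B hz, Thx_levi B hz]

end Pool.Agent.TWR
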