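import Pool.Agent.TWR.Lfl

/-!
TWR module Unf (size 4): the flow is `Good` for all times.
PROOF. `K = {y | len B m s y = len B m s x}` is compact (closed in the compact space `X`, `continuous_len`) and
contained in `Off A s` (`len_pos`). `flow_local` and a finite subcover give `ε > 0` with
`Good B (u * l * m) (Fl B m s l u) y` for all `y ∈ K`, `|u| < ε` (as in CIS/Cpl.lean). Choose `N : ℕ`, `N > 0`, with
`|t / N| < ε`, `u = t / N`. By induction on `k`: `Good B (k * u * l * m) (Fl B m s l (k * u)) x`: for `k = 0`, `Fl 0 = id` on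
the open set `Off A s` (`Fl_zero`, `isOpen_Off`): the identity is `Good B 0` (`good_of_chart` in the charts
`i, i`, `i = ix A x`: the function `y ↦ A.c i ((A.c i).symm y)` is the identity near `A.c i x`) and `good_congr`;
step: `Fl (u * (k + 1)) y = Fl u (Fl (u * k) y)` for `y ∈ Off A s` (`Fl_add`), `Fl (u * k) x ∈ K` (`Fl_len`), `good_comp`,
`good_congr`. For `k = N` the parameter is `t * l * m`.
-/

open scoped ContDiff ComplexConjugate Topology
open Complex

namespace Pool.Agent.TWR

open Pool.Agent.DTW Pool.Agent.CIS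

variable {n : ℕ} {X : Type*} [TopologicalSpace X] [T2Space X] [CompactSpace X] {ι : Type*}
  {A : Atlas n X ι} {B : Bundle A} {m : ℤ} {s : ι → X → ℂ}

omit [T2Space X] [CompactSpace X] in
private theorem Unf_id (B : Bundle A) {x : X} {t : ℂ} (ht : t = 0) : Good B t (fun y => y) x := by
  subst ht
  have hx : x ∈ (A.c (ix A x)).source := mem_ix A x
  have hev : (fun y => A.c (ix A x) ((A.c (ix A x)).symm y)) =ᶠ[𝓝 (A.c (ix A x) x)] fun y => y := by
    filter_upwards [(A.c (ix A x)).open_target.mem_nhds ((A.c (ix A x)).map_source hx)] with y hy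
    exact (A.c (ix A x)).right_inv hy
  have hfd : fderiv ℝ (fun y => A.c (ix A x) ((A.c (ix A x)).symm y)) (A.c (ix A x) x)
      = ContinuousLinearMap.id ℝ (E n) := by
    rw [hev.fderiv_eq]
    exact fderiv_fun_id
  refine good_of_chart B (F := fun y => y) continuousAt_id hx hx ?_ ?_ ?_
  · exact contDiffAt_id.congr_of_eventuallyEq hev
  · intro a b
    rw [hfd]
    simp
  · intro a b
    rw [hfd]
    simp

theorem flow_good (hs : B.IsSection m s) (hol : B.IsHol s) (l : ℂ)
    (hker : ∀ i, ∀ z ∈ Ou A s i, ∀ b : E n, th (B.wt i) z (WW B m s l i z) b = 0) {x : X}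
    (hx : x ∈ Off A s) (t : ℝ) : Good B ((t : ℂ) * l * m) (Fl B m s l t) x := by
  have hKoff : ∀ y, len B m s y = len B m s x → y ∈ Off A s := by
    intro y hy
    refine (len_pos hs).1 ?_
    rw [hy]
    exact (len_pos hs).2 hx
  have hKc : IsCompact {y | len B m s y = len B m s x} :=
    (isClosed_eq (continuous_len hs) continuous_const).isCompact
  choose! N hN ε hε H using fun x₀ (hx₀ : x₀ ∈ Off A s) =>
    flow_local (A := A) hs hol l hker hx₀
  obtain ⟨T, hTK, hcov⟩ := hKc.elim_nhds_subcover N (fun y hy => hN y (hKoff y hy))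
  have hne : T.Nonempty := by
    have h := hcov (show x ∈ {y | len B m s y = len B m s x} from rfl)
    simp only [Set.mem_iUnion] at h
    obtain ⟨y, hy, -⟩ := h
    exact ⟨y, hy⟩
  obtain ⟨y₀, hy₀, hmin⟩ := Finset.exists_min_image T ε hne
  have hε0 : 0 < ε y₀ := hε y₀ (hKoff y₀ (hTK y₀ hy₀))
  have HK : ∀ y, len B m s y = len B m s x → ∀ u : ℝ, |u| < ε y₀ →
      Good B ((u : ℂ) * l * m) (Fl B m s l u) y := by
    intro y hy u hu
    have h := hcov (show y ∈ {y | len B m s y = len B m s x} from hy)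
    simp only [Set.mem_iUnion] at h
    obtain ⟨y', hy', hyN⟩ := h
    have hle := hmin y' hy'
    have hu' := abs_lt.1 hu
    exact H y' (hKoff y' (hTK y' hy')) y hyN u ⟨by linarith [hu'.1], by linarith [hu'.2]⟩
  obtain ⟨K, hK⟩ := exists_nat_gt (|t| / ε y₀)
  have hK0 : (0 : ℝ) < K := lt_of_le_of_lt (div_nonneg (abs_nonneg _) hε0.le) hK
  have hu : |t / K| < ε y₀ := by
    rw [abs_div, abs_of_pos hK0, div_lt_iff₀ hK0]
    have := (div_lt_iff₀ hε0).1 hK
    linarith
  have main : ∀ k : ℕ, Good B (((k * (t / K) : ℝ) : ℂ) * l * m) (Fl B m s l (k * (t / K))) x := by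
    intro k
    induction k with
    | zero =>
      refine good_congr B (Unf_id B (by simp)) ?_
      filter_upwards [(isOpen_Off hs).mem_nhds hx] with y hy
      have h0 : ((0 : ℕ) : ℝ) * (t / K) = 0 := by simp
      rw [h0]
      exact (Fl_zero hs hol l hy).symm
    | succ k ih =>
      have h1 := HK (Fl B m s l (k * (t / K)) x) (Fl_len hs hol l hx _) (t / K) hu
      have h2 := good_comp B ih h1
      have e1 : (((k * (t / K) : ℝ) : ℂ) * l * m) + (((t / K : ℝ) : ℂ) * l * m)
          = (((((k + 1 : ℕ) : ℝ) * (t / K) : ℝ) : ℂ) * l * m) := by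
        push_cast
        ring
      rw [← e1]
      refine good_congr B h2 ?_
      filter_upwards [(isOpen_Off hs).mem_nhds hx] with y hy
      have e2 : (((k + 1 : ℕ) : ℝ) * (t / K)) = t / K + k * (t / K) := by
        push_cast
        ring
      rw [e2]
      exact (Fl_add hs hol l hy (t / K) (k * (t / K))).symm
  have h := main K
  have e3 : ((K : ℝ) * (t / K)) = t := by
    field_simp
  rw [e3] at h
  exact h

end Pool.Agent.TWR
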