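import Pool.Agent.TWR.Defs

/-!
TWR module Unq (size 4): uniqueness of integral curves.
PROOF. Let `T = {τ ∈ Ioo a b | γ₁ τ = γ₂ τ}`; it contains `0`. It is closed in `Ioo a b` (`X` is Hausdorff,
`γ₁`, `γ₂` are continuous there). It is open: let `τ₀ ∈ T`, `x = γ₁ τ₀ = γ₂ τ₀ ∈ Off A s`, `i = ix A x`,
`z = A.c i x ∈ Ou A s i`. `V i` is `C¹` at `z`, so Lipschitz on a neighbourhood `N` of `z` in `Ou A s i`
(`ContDiffAt.exists_lipschitzOnWith`). For `τ` near `τ₀` both curves are in `(A.c i).source` and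
`A.c i (γ τ) ∈ N` (continuity), and `A.c i ∘ γ₁`, `A.c i ∘ γ₂` solve the same ODE with the same value at `τ₀`:
they agree near `τ₀` (`ODE_solution_unique_of_mem_Ioo` or `ODE_solution_unique_of_eventually`), and `A.c i` is
injective on its source. Conclude with `isPreconnected_Ioo` (`IsPreconnected.subset_of_closure_inter_subset`
or `IsPreconnected.induction`, or the connectedness of the subtype `Ioo a b`: a clopen nonempty set is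
everything).
-/

open scoped ContDiff ComplexConjugate Topology
open Complex

namespace Pool.Agent.TWR

open Pool.Agent.DTW Pool.Agent.CIS

variable {n : ℕ} {X : Type*} [TopologicalSpace X] [T2Space X] {ι : Type*} {A : Atlas n X ι}
  {B : Bundle A} {m : ℤ} {s : ι → X → ℂ}

omit [TopologicalSpace X] [T2Space X] in
private theorem Unq_ne {Y : Type*} [TopologicalSpace Y] [T2Space Y] {g h : ℝ → Y} {r : ℝ}
    (hg : ContinuousAt g r) (hh : ContinuousAt h r) (hne : g r ≠ h r) :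
    ∀ᶠ u in 𝓝 r, g u ≠ h u := by
  have h1 : ContinuousAt (fun u => (g u, h u)) r := hg.prodMk hh
  have h3 : (g r, h r) ∈ (Set.diagonal Y)ᶜ := hne
  exact h1.eventually (isClosed_diagonal.isOpen_compl.mem_nhds h3)

omit [T2Space X] in
private theorem Unq_ev {V : ι → E n → E n} {γ : ℝ → X} {a b τ₀ : ℝ} (hτ : τ₀ ∈ Set.Ioo a b)
    (h : ∀ τ ∈ Set.Ioo a b, IC A V γ τ ∧ γ τ ∈ Off A s) {i : ι} (hi : γ τ₀ ∈ (A.c i).source)
    {N : Set (E n)} (hN : N ∈ 𝓝 (A.c i (γ τ₀))) :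
    (∀ᶠ u in 𝓝 τ₀, HasDerivAt (fun u => A.c i (γ u)) (V i (A.c i (γ u))) u ∧ A.c i (γ u) ∈ N) ∧
      ∀ᶠ u in 𝓝 τ₀, γ u ∈ (A.c i).source := by
  have hc := (h τ₀ hτ).1.1
  have h1 : ∀ᶠ u in 𝓝 τ₀, u ∈ Set.Ioo a b := isOpen_Ioo.mem_nhds hτ
  have h2 : ∀ᶠ u in 𝓝 τ₀, γ u ∈ (A.c i).source := hc ((A.c i).open_source.mem_nhds hi)
  have h3 : ContinuousAt (fun u => A.c i (γ u)) τ₀ :=
    ContinuousAt.comp (f := γ) ((A.c i).continuousAt hi) hc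
  have h4 : ∀ᶠ u in 𝓝 τ₀, A.c i (γ u) ∈ N := h3 hN
  refine ⟨?_, h2⟩
  filter_upwards [h1, h2, h4] with u k1 k2 k4
  exact ⟨(h u k1).1.2 i k2, k4⟩

omit [T2Space X] in
private theorem Unq_loc (hs : B.IsSection m s) {V : ι → E n → E n}
    (hV : ∀ i, ContDiffOn ℝ ∞ (V i) (Ou A s i)) {γ₁ γ₂ : ℝ → X} {a b : ℝ}
    (h1 : ∀ τ ∈ Set.Ioo a b, IC A V γ₁ τ ∧ γ₁ τ ∈ Off A s)
    (h2 : ∀ τ ∈ Set.Ioo a b, IC A V γ₂ τ ∧ γ₂ τ ∈ Off A s) {τ₀ : ℝ} (hτ : τ₀ ∈ Set.Ioo a b)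
    (h0 : γ₁ τ₀ = γ₂ τ₀) : ∀ᶠ u in 𝓝 τ₀, γ₁ u = γ₂ u := by
  obtain ⟨i, hi⟩ := A.cover (γ₁ τ₀)
  have hi' : γ₂ τ₀ ∈ (A.c i).source := by rw [← h0]; exact hi
  have hz : A.c i (γ₁ τ₀) ∈ Ou A s i := by
    refine ⟨(A.c i).map_source hi, ?_⟩
    rw [(A.c i).left_inv hi]
    exact (h1 τ₀ hτ).2
  have hd : ContDiffAt ℝ 1 (V i) (A.c i (γ₁ τ₀)) :=
    ((hV i).contDiffAt ((isOpen_Ou hs i).mem_nhds hz)).of_le (by exact_mod_cast le_top)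
  obtain ⟨K, N, hN, hL⟩ := hd.exists_lipschitzOnWith
  obtain ⟨e1, s1⟩ := Unq_ev (V := V) hτ h1 hi hN
  have hN' : N ∈ 𝓝 (A.c i (γ₂ τ₀)) := by rw [← h0]; exact hN
  obtain ⟨e2, s2⟩ := Unq_ev (V := V) hτ h2 hi' hN'
  have key : (fun u => A.c i (γ₁ u)) =ᶠ[𝓝 τ₀] fun u => A.c i (γ₂ u) :=
    ODE_solution_unique_of_eventually (v := fun _ => V i) (s := fun _ => N) (K := K)
      (Filter.Eventually.of_forall fun _ => hL) e1 e2 (by simp only [h0])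
  filter_upwards [key, s1, s2] with u k1 k2 k3
  exact (A.c i).injOn k2 k3 k1

theorem curve_unique (hs : B.IsSection m s) {V : ι → E n → E n}
    (hV : ∀ i, ContDiffOn ℝ ∞ (V i) (Ou A s i)) {γ₁ γ₂ : ℝ → X} {a b : ℝ} (ha : a < 0)
    (hb : 0 < b) (h1 : ∀ τ ∈ Set.Ioo a b, IC A V γ₁ τ ∧ γ₁ τ ∈ Off A s)
    (h2 : ∀ τ ∈ Set.Ioo a b, IC A V γ₂ τ ∧ γ₂ τ ∈ Off A s) (h0 : γ₁ 0 = γ₂ 0) {τ : ℝ}
    (hτ : τ ∈ Set.Ioo a b) : γ₁ τ = γ₂ τ := by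
  set T : Set ℝ := {u | u ∈ Set.Ioo a b ∧ γ₁ u = γ₂ u} with hT
  have hop : IsOpen T := by
    rw [isOpen_iff_mem_nhds]
    intro u hu
    have e1 := Unq_loc hs hV h1 h2 hu.1 hu.2
    have e2 : ∀ᶠ v in 𝓝 u, v ∈ Set.Ioo a b := isOpen_Ioo.mem_nhds hu.1
    filter_upwards [e1, e2] with v k1 k2
    exact ⟨k2, k1⟩
  have hcl : closure T ∩ Set.Ioo a b ⊆ T := by
    intro u hu
    refine ⟨hu.2, ?_⟩
    by_contra hne
    have e1 := Unq_ne (h1 u hu.2).1.1 (h2 u hu.2).1.1 hne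
    have e2 : ∃ᶠ v in 𝓝 u, v ∈ T := mem_closure_iff_frequently.1 hu.1
    exact e2 (e1.mono fun v hv h => hv h.2)
  have hne : (Set.Ioo a b ∩ T).Nonempty := ⟨0, ⟨ha, hb⟩, ⟨ha, hb⟩, h0⟩
  have hsub : Set.Ioo a b ⊆ T :=
    isPreconnected_Ioo.subset_of_closure_inter_subset hop hne hcl
  exact (hsub hτ).2

end Pool.Agent.TWR
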